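import Pool.Agent.Work.MP_8d13b5_lc.Sc.Data
import Pool.Agent.Work.MP_8d13b5_lc.Pd.Decide

set_option autoImplicit false

/-! The decision procedure. -/

namespace Pool.Agent.Work.MP_8d13b5_lc.Sc

open Finset Pool.Agent.Work.MP_8d13b5_lc.US Pool.Agent.Work.MP_8d13b5_lc.Pd

/-- a bound for all zeros of a sequence with data `x.1` in the class of size `x.2` -/
def bd (x : (List ℤ × List ℤ) × ℕ) : ℕ :=
  x.2 * (220 * x.2 * (size x.1 * size x.1 * size x.1) * x.2 * (x.2 + x.2 * (size x.1 + 3)) +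
    x.2 + 1) + 1

theorem primrec_bd : Primrec bd := by
  have hs : Primrec (fun x : (List ℤ × List ℤ) × ℕ => size x.1) := primrec_size.comp Primrec.fst
  have hF : Primrec (fun x : (List ℤ × List ℤ) × ℕ => x.2) := Primrec.snd
  have h2 : Primrec (fun x : (List ℤ × List ℤ) × ℕ => 220 * x.2) :=
    Primrec.nat_mul.comp (Primrec.const 220) hF
  have h3 : Primrec (fun x : (List ℤ × List ℤ) × ℕ =>
      220 * x.2 * (size x.1 * size x.1 * size x.1)) :=
    Primrec.nat_mul.comp h2 (Primrec.nat_mul.comp (Primrec.nat_mul.comp hs hs) hs)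
  have h4 : Primrec (fun x : (List ℤ × List ℤ) × ℕ => x.2 + x.2 * (size x.1 + 3)) :=
    Primrec.nat_add.comp hF (Primrec.nat_mul.comp hF (Primrec.nat_add.comp hs (Primrec.const 3)))
  have h5 : Primrec (fun x : (List ℤ × List ℤ) × ℕ =>
      220 * x.2 * (size x.1 * size x.1 * size x.1) * x.2 * (x.2 + x.2 * (size x.1 + 3)) +
        x.2 + 1) :=
    Primrec.nat_add.comp (Primrec.nat_add.comp
      (Primrec.nat_mul.comp (Primrec.nat_mul.comp h3 hF) h4) hF) (Primrec.const 1)
  exact Primrec.nat_add.comp (Primrec.nat_mul.comp hF h5) (Primrec.const 1)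

/-- the index inside the residue class is large -/
theorem bd_large {B : ℕ} {p : List ℤ × List ℤ} {T k ν n : ℕ} (hT : T ≤ B)
    (hk : k ≤ B) (hν : ν ≤ B) (hn : bd (p, B) ≤ n) (hT1 : 1 ≤ T) :
    220 * ν * p.1.length ^ 3 * k * (B + T * lsize p) < n / T ∧ B ≤ n / T := by
  have hd : p.1.length ≤ size p := by unfold size; omega
  set E := 220 * B * (size p * size p * size p) * B * (B + B * (size p + 3)) + B with hE
  have h1 : E + 1 ≤ n / T := by
    rw [Nat.le_div_iff_mul_le hT1]
    have h2 : bd (p, B) = B * (E + 1) + 1 := rfl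
    have h3 : (E + 1) * T ≤ B * (E + 1) := by
      rw [mul_comm]
      exact Nat.mul_le_mul_right _ hT
    omega
  have h4 : 220 * ν * p.1.length ^ 3 * k * (B + T * lsize p) ≤
      220 * B * (size p * size p * size p) * B * (B + B * (size p + 3)) := by
    apply Nat.mul_le_mul
    · apply Nat.mul_le_mul _ hk
      apply Nat.mul_le_mul (Nat.mul_le_mul_left _ hν)
      calc p.1.length ^ 3 ≤ size p ^ 3 := Nat.pow_le_pow_left hd 3
        _ = size p * size p * size p := by ring
    · exact Nat.add_le_add le_rfl (Nat.mul_le_mul hT (lsize_le p))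
  omega

/-- decision procedure from the bound -/
theorem decide_of_bd (P : ℕ → List ℤ × List ℤ → (ℕ → ℤ) → Prop)
    (h : ∀ (B : ℕ) (p : List ℤ × List ℤ) (u : ℕ → ℤ), IsSeq p u → P B p u →
      ∀ n, bd (p, B) ≤ n → u n ≠ 0) :
    ∃ M : (List ℤ × List ℤ) × ℕ → Bool, Primrec M ∧
      ∀ (B : ℕ) (p : List ℤ × List ℤ) (u : ℕ → ℤ), IsSeq p u → P B p u →
        (M (p, B) = true ↔ ∃ n, u n = 0) := by
  classical
  refine ⟨fun x => decide (∃ n < bd x, val x.1 n = 0), ?_, ?_⟩
  · have hR : PrimrecRel (fun (m : ℕ) (x : Code × ℕ) => val x.1 m = 0) :=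
      Primrec.eq.comp (primrec_val.comp (Primrec.fst.comp Primrec.snd) Primrec.fst)
        (Primrec.const 0)
    exact ((rel_exists_lt hR).comp primrec_bd Primrec.id).decide.of_eq fun p => by simp
  · intro B p u hpu hP
    have hpu' := hpu
    obtain ⟨h1, h2, h3, hu1, hu2⟩ := hpu
    have huv : u = val p := funext (eq_val p ⟨h1, h2, h3⟩ u hu1 hu2)
    rw [decide_eq_true_eq]
    constructor
    · rintro ⟨n, _, hn⟩
      exact ⟨n, by rw [huv]; exact hn⟩
    · rintro ⟨n, hn⟩
      by_cases hlt : n < bd (p, B)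
      · exact ⟨n, hlt, by rw [← huv]; exact hn⟩
      · exact absurd hn (h B p u hpu' hP n (not_lt.1 hlt))

end Pool.Agent.Work.MP_8d13b5_lc.Sc
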