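import Pool.Agent.Work.MP_8d13b5_lc.Bd.B07

set_option autoImplicit false

/-! Families in a cone. -/

namespace Pool.Agent.Work.MP_8d13b5_lc.Sc

open Polynomial Finset NumberField Pool.Agent.Work.MP_8d13b5_lc.Pd

/-- the choice of `σ` and `E` -/
theorem exists_cone {C H N : ℝ} {ν : ℕ} (hC : 8 ≤ C) (hH : 1 ≤ H) (hν : 1 ≤ ν)
    (hN : 2 * H * C ^ (2 * ν) ≤ N) :
    ∃ (σ : ℕ) (E : ℝ), 1 ≤ σ ∧ 1 ≤ E ∧ E ^ (2 * σ) = C ^ (2 * σ * ν) * (2 * H * N) ∧
      E ≤ 2 * H * C ^ (3 * ν) ∧ (E ^ σ * N ^ (ν - 1)) ≤ N ^ ν := by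
  have hC1 : 1 ≤ C := by linarith
  have hY : 1 < C ^ (2 * ν) := one_lt_pow₀ (by linarith) (by omega)
  have hN1 : 1 ≤ N := by nlinarith
  have hx : C ^ (2 * ν) ≤ N / (2 * H) := by
    rw [le_div_iff₀ (by linarith), mul_comm]
    exact hN
  obtain ⟨σ, hσ1, hσ2⟩ := exists_nat_pow_near (hY.le.trans hx) hY
  have hσ : 1 ≤ σ := by
    by_contra hcon
    have : σ = 0 := by omega
    subst this
    rw [zero_add, pow_one] at hσ2
    linarith
  rw [le_div_iff₀ (by linarith)] at hσ1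
  rw [div_lt_iff₀ (by linarith)] at hσ2
  obtain ⟨E, hE0, hE⟩ := exists_root (x := C ^ (2 * σ * ν) * (2 * H * N)) (by positivity)
    (n := 2 * σ) (by omega)
  have hE1 : 1 ≤ E := by
    by_contra hcon
    have h1 : E ^ (2 * σ) ≤ 1 := pow_le_one₀ hE0 (not_le.1 hcon).le
    have h2 : 1 ≤ C ^ (2 * σ * ν) := one_le_pow₀ hC1
    have h3 : 2 * 1 * 1 ≤ 2 * H * N := by nlinarith
    rw [hE] at h1
    nlinarith
  have hpow : (C ^ (2 * ν)) ^ σ = C ^ (2 * σ * ν) := by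
    rw [← pow_mul]
    congr 1
    ring
  rw [hpow] at hσ1
  refine ⟨σ, E, hσ, hE1, hE, ?_, ?_⟩
  · refine le_of_pow_le_pow_left₀ (n := 2 * σ) (by omega) (by positivity) ?_
    rw [hE]
    have hH2 : (2 * H) ^ 2 ≤ (2 * H) ^ (2 * σ) := pow_le_pow_right₀ (by linarith) (by omega)
    have hC2 : C ^ (2 * σ * ν) * (C ^ (2 * ν)) ^ (σ + 1) ≤ (C ^ (3 * ν)) ^ (2 * σ) := by
      rw [← pow_mul, ← pow_mul, ← pow_add]
      apply pow_le_pow_right₀ hC1
      have h1 : ν ≤ ν * σ := Nat.le_mul_of_pos_right _ hσ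
      have e1 : 2 * σ * ν + 2 * ν * (σ + 1) = 4 * (ν * σ) + 2 * ν := by ring
      have e2 : 3 * ν * (2 * σ) = 6 * (ν * σ) := by ring
      omega
    calc C ^ (2 * σ * ν) * (2 * H * N)
        ≤ C ^ (2 * σ * ν) * (2 * H * ((C ^ (2 * ν)) ^ (σ + 1) * (2 * H))) := by
          apply mul_le_mul_of_nonneg_left _ (by positivity)
          exact mul_le_mul_of_nonneg_left hσ2.le (by positivity)
      _ = (2 * H) ^ 2 * (C ^ (2 * σ * ν) * (C ^ (2 * ν)) ^ (σ + 1)) := by ring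
      _ ≤ (2 * H) ^ (2 * σ) * (C ^ (3 * ν)) ^ (2 * σ) :=
          mul_le_mul hH2 hC2 (by positivity) (by positivity)
      _ = (2 * H * C ^ (3 * ν)) ^ (2 * σ) := by rw [mul_pow (2 * H)]
  · refine le_of_pow_le_pow_left₀ (n := 2) (by norm_num) (by positivity) ?_
    have e1 : (N ^ ν) ^ 2 = N * N * (N ^ (ν - 1)) ^ 2 := by
      obtain ⟨k, rfl⟩ : ∃ k, ν = k + 1 := ⟨ν - 1, by omega⟩
      rw [Nat.add_sub_cancel, pow_succ]
      ring
    have e2 : (E ^ σ) ^ 2 = E ^ (2 * σ) := by rw [← pow_mul, mul_comm]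
    rw [mul_pow, e1, e2, hE]
    apply mul_le_mul_of_nonneg_right _ (by positivity)
    calc C ^ (2 * σ * ν) * (2 * H * N) = C ^ (2 * σ * ν) * (2 * H) * N := by ring
      _ ≤ N * N := mul_le_mul_of_nonneg_right hσ1 (by linarith)

variable {K : Type*} [Field K] [NumberField K]

/-- **Cones.** -/
theorem cone {f g : (𝓞 K)[X]} (hf : f.Monic) (hg : g.Monic) (hf0 : f.coeff 0 ≠ 0)
    (hg0 : g.coeff 0 ≠ 0) {H : ℝ} (hH : 1 ≤ H) {ν : ℕ} (hν : 1 ≤ ν) :
    ∃ (a : ℝ) (ε N₀ : ℝ), 0 < ε ∧ ∀ N : ℝ, N₀ ≤ N → ∀ (q : (𝓞 K)[X]) (β β' : 𝓞 K), q.Monic →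
      q.coeff 0 ≠ 0 → β ≠ β' → (∀ φ : K →+* ℂ, N ≤ ‖φ β'‖ ∧ ‖φ β'‖ ≤ H * N ∧
        ‖φ β - φ β'‖ ≤ ε * N ∧ ∀ z : ℂ, q.eval₂ (res φ) z = 0 → ‖z‖ ^ ν ≤ N ^ (ν - 1)) →
      ∃ (σ : ℕ) (w E : ℝ), SFam K f g q β β' 1 (β' - β) σ 1 σ ν (fun _ => a) (fun _ => w)
        (fun _ => E) := by
  classical
  choose a₁ ha₁ using fun φ : K →+* ℂ => exists_root_bound (K := K) hf.ne_zero φ
  choose a₂ ha₂ using fun φ : K →+* ℂ => exists_root_bound (K := K) hg.ne_zero φ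
  have hle : ∀ φ, a₁ φ ≤ ∑ φ, (a₁ φ + a₂ φ) ∧ a₂ φ ≤ ∑ φ, (a₁ φ + a₂ φ) := by
    intro φ
    have h1 : a₁ φ + a₂ φ ≤ ∑ φ, (a₁ φ + a₂ φ) :=
      single_le_sum (f := fun φ => a₁ φ + a₂ φ) (fun ψ _ => by
        have := (ha₁ ψ).1
        have := (ha₂ ψ).1
        linarith) (mem_univ φ)
    have h2 := (ha₁ φ).1
    have h3 := (ha₂ φ).1
    exact ⟨by linarith, by linarith⟩
  set a := ∑ φ, (a₁ φ + a₂ φ) with ha
  obtain ⟨φ₀⟩ : Nonempty (K →+* ℂ) := inferInstance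
  have ha1 : 1 ≤ a := (ha₁ φ₀).1.trans (hle φ₀).1
  set C := 1024 * a ^ 2 with hC
  have hC8 : 1024 ≤ C := by nlinarith
  have hC1 : 1 ≤ C := by linarith
  refine ⟨a, (2 * H * C ^ (3 * ν))⁻¹, 2 * H * C ^ (2 * ν), by positivity,
    fun N hN q β β' hq hq0 hne hφ => ?_⟩
  obtain ⟨σ, E, hσ, hE1, hE, hE2, hE3⟩ := exists_cone (by linarith : 8 ≤ C) hH hν hN
  have hCν : 1 ≤ C ^ (3 * ν) := one_le_pow₀ hC1
  have hN1 : C ^ (2 * ν) ≤ N := by
    refine le_trans ?_ hN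
    exact le_mul_of_one_le_left (by positivity) (by linarith)
  have hN1' : 1 ≤ N := (one_le_pow₀ hC1).trans hN1
  obtain ⟨w, hw0, hw⟩ := exists_root (x := N ^ (ν - 1)) (by positivity) (n := ν) (by omega)
  have hw1 : 1 ≤ w := by
    refine le_of_pow_le_pow_left₀ (n := ν) (by omega) hw0 ?_
    rw [hw, one_pow]
    exact one_le_pow₀ hN1'
  have hε : (2 * H * C ^ (3 * ν))⁻¹ ≤ 1 / 2 := by
    rw [inv_le_comm₀ (by positivity) (by norm_num)]
    norm_num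
    nlinarith
  have hEε : E * ((2 * H * C ^ (3 * ν))⁻¹ * N) ≤ N := by
    rw [← mul_assoc, ← div_eq_mul_inv]
    apply mul_le_of_le_one_left (by linarith)
    rw [div_le_one (by positivity)]
    exact hE2
  have h8w : 8 * w ≤ N := by
    refine le_of_pow_le_pow_left₀ (n := ν) (by omega) (by linarith) ?_
    rw [mul_pow, hw]
    have e1 : N ^ ν = N * N ^ (ν - 1) := by
      rw [← pow_succ']
      congr 1
      omega
    rw [e1]
    apply mul_le_mul_of_nonneg_right _ (by positivity)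
    calc (8 : ℝ) ^ ν ≤ C ^ ν := pow_le_pow_left₀ (by norm_num) (by linarith) ν
      _ ≤ C ^ (2 * ν) := pow_le_pow_right₀ hC1 (by omega)
      _ ≤ N := hN1
  have hβlow : ∀ φ : K →+* ℂ, N / 2 ≤ ‖φ β‖ := by
    intro φ
    obtain ⟨h1, h2, h3, _⟩ := hφ φ
    have h4 : ‖φ β'‖ - ‖φ β‖ ≤ ‖φ β - φ β'‖ := by
      rw [norm_sub_rev]
      exact norm_sub_norm_le _ _
    have h5 : (2 * H * C ^ (3 * ν))⁻¹ * N ≤ 1 / 2 * N :=
      mul_le_mul_of_nonneg_right hε (by linarith)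
    linarith
  have hβup : ∀ φ : K →+* ℂ, ‖φ β‖ ≤ 2 * H * N := by
    intro φ
    obtain ⟨h1, h2, h3, _⟩ := hφ φ
    have h4 : ‖φ β‖ - ‖φ β'‖ ≤ ‖φ β - φ β'‖ := norm_sub_norm_le _ _
    have h5 : (2 * H * C ^ (3 * ν))⁻¹ * N ≤ 1 / 2 * N :=
      mul_le_mul_of_nonneg_right hε (by linarith)
    have h6 : N ≤ H * N := le_mul_of_one_le_left (by linarith) hH
    linarith
  refine ⟨σ, w, E, ?_⟩
  exact
    { monic := ⟨hf, hg, hq⟩
      coeff := ⟨hf0, hg0, hq0⟩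
      exps := ⟨hσ, hν, le_rfl, by
        rw [one_mul]
        exact Nat.le_mul_of_pos_right _ hν⟩
      ne := hne
      diff := by ring
      coprime := isCoprime_one_left
      roots := fun φ => ⟨ha1, hw1, hE1, fun z hz => ((ha₁ φ).2 z hz).trans (hle φ).1,
        fun z hz => ((ha₂ φ).2 z hz).trans (hle φ).2, fun z hz =>
          le_of_pow_le_pow_left₀ (n := ν) (by omega) hw0 (by
            rw [hw]
            exact (hφ φ).2.2.2 z hz)⟩
      close := fun φ => by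
        right
        obtain ⟨h1, h2, h3, _⟩ := hφ φ
        constructor
        · calc E * ‖φ β - φ β'‖ ≤ E * ((2 * H * C ^ (3 * ν))⁻¹ * N) :=
                mul_le_mul_of_nonneg_left h3 (by linarith)
            _ ≤ N := hEε
            _ ≤ ‖φ β'‖ := h1
        · have e1 : ‖φ ((1 : 𝓞 K) : K)‖ ^ σ = 1 := by
            rw [show ((1 : 𝓞 K) : K) = 1 from rfl, map_one, norm_one, one_pow]
          rw [e1, mul_one, hw]
          exact hE3.trans (pow_le_pow_left₀ (by linarith) h1 ν)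
      small := by
        constructor
        · refine prod_le_prod (fun φ _ => by positivity) fun φ _ => ?_
          linarith [hβlow φ]
        · refine prod_le_prod (fun φ _ => by positivity) fun φ _ => ?_
          linarith [(hφ φ).1]
      large := by
        refine prod_le_prod (fun φ _ => by positivity) fun φ _ => ?_
        have e1 : ‖φ ((1 : 𝓞 K) : K)‖ = 1 := by
          rw [show ((1 : 𝓞 K) : K) = 1 from rfl, map_one, norm_one]
        rw [e1, one_pow, one_mul, hE]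
        apply mul_le_mul_of_nonneg_left _ (by positivity)
        have h6 : N ≤ H * N := le_mul_of_one_le_left (by linarith) hH
        refine max_le (by linarith) (max_le (hβup φ) ?_)
        have := (hφ φ).2.1
        linarith }

end Pool.Agent.Work.MP_8d13b5_lc.Sc
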