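import Pool.Agent.Work.MP_8d13b5_lc.Bd.B07

set_option autoImplicit false

/-! The zero bound for the families `β = x + y δ`, `β' = x - y δ`, `δ ^ 2 = -d`. -/

namespace Pool.Agent.Work.MP_8d13b5_lc.Sc

open Polynomial Finset NumberField Pool.Agent.Work.MP_8d13b5_lc.Pd
open scoped IntermediateField

/-- **Quadratic families.** -/
theorem quad {δ : ℂ} {d : ℤ} (hd : 1 ≤ d) (hδ : δ ^ 2 = -d)
    {f : ℤ[X]} (hf : f.Monic) (hf0 : f.coeff 0 ≠ 0) (hdeg : 1 ≤ f.natDegree)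
    {a : ℝ} (ha1 : 1 ≤ a) (ha : ∀ z : ℂ, aeval z f = 0 → ‖z‖ ≤ a) {x y z D ρ : ℤ}
    {l m σ ν : ℕ} (hσ : 1 ≤ σ) (hν : 1 ≤ ν) (hm1 : 1 ≤ m) (hml : m * σ ≤ l * ν)
    (hyz : y = D ^ m * z) (hy0 : y ≠ 0) (hρ0 : ρ ≠ 0) (hD : IsCoprime D x)
    (hc1 : ((1024 * a ^ 2) ^ ν * (2 * |(z : ℝ)| * ‖δ‖)) ^ (2 * σ) ≤
      ‖(x : ℂ) + y * δ‖ ^ (2 * σ - 1))
    (hc2 : (1024 * a ^ 2) ^ (2 * σ * ν) * |(ρ : ℝ)| ^ (2 * ν) *
      |(D : ℝ)| ^ (2 * (l * ν - m * σ)) ≤ ‖(x : ℂ) + y * δ‖ ^ (2 * ν - 1))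
    {p : List ℤ × List ℤ} {u : ℕ → ℤ} (hu : IsSeq p u)
    (hχ : (chi p.1).map (algebraMap ℤ ℂ) =
      (f.map (algebraMap ℤ ℂ)).scaleRoots (x + y * δ) *
        (f.map (algebraMap ℤ ℂ)).scaleRoots (x - y * δ) * (X - C ((D : ℂ) ^ l * ρ)))
    (hnot : ¬ Sol ((f.map (algebraMap ℤ ℂ)).scaleRoots (x + y * δ) *
      (f.map (algebraMap ℤ ℂ)).scaleRoots (x - y * δ)) (fun n => (u n : ℂ))) {n : ℕ}
    (hn : 880 * ν * p.1.length ^ 3 * lsize p < n) : u n ≠ 0 := by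
  intro h0
  have : NumberField ℚ⟮δ⟯ := numberField_delta hδ
  obtain ⟨E, H⟩ := quad_fam hd hδ hf hf0 ha1 ha hσ hν hm1 hml hyz hy0 hρ0 hD hc1 hc2
  have hm : m ≠ 0 := by omega
  set f' : (𝓞 ℚ⟮δ⟯)[X] := f.map (algebraMap ℤ (𝓞 ℚ⟮δ⟯)) with hf'
  set q : (𝓞 ℚ⟮δ⟯)[X] := X - C (ρ : 𝓞 ℚ⟮δ⟯) with hq
  set β : 𝓞 ℚ⟮δ⟯ := (x : 𝓞 ℚ⟮δ⟯) + y * dl hδ with hβ
  set β' : 𝓞 ℚ⟮δ⟯ := (x : 𝓞 ℚ⟮δ⟯) - y * dl hδ with hβ'
  have hf'm : f'.Monic := hf.map _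
  have hqm : q.Monic := monic_X_sub_C _
  set φ₀ : ℚ⟮δ⟯ →+* ℂ := algebraMap ℚ⟮δ⟯ ℂ with hφ₀
  have hcomp : ∀ φ : ℚ⟮δ⟯ →+* ℂ, (res φ).comp (algebraMap ℤ (𝓞 ℚ⟮δ⟯)) = algebraMap ℤ ℂ :=
    fun φ => RingHom.ext_int _ _
  have him : res φ₀ (dl hδ) = δ := emb_dl hδ
  have hβφ : res φ₀ β = x + y * δ := by
    rw [hβ, map_add, map_mul, map_intCast, map_intCast, him]
  have hβ'φ : res φ₀ β' = x - y * δ := by
    rw [hβ', map_sub, map_mul, map_intCast, map_intCast, him]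
  have hP12 : (f'.scaleRoots β * f'.scaleRoots β').map (res φ₀) =
      (f.map (algebraMap ℤ ℂ)).scaleRoots (x + y * δ) *
        (f.map (algebraMap ℤ ℂ)).scaleRoots (x - y * δ) := by
    rw [Polynomial.map_mul, map_scale _ hf'm, map_scale _ hf'm, hβφ, hβ'φ, hf', Polynomial.map_map,
      hcomp]
  have hP : (chi p.1).map (algebraMap ℤ (𝓞 ℚ⟮δ⟯)) =
      f'.scaleRoots β * f'.scaleRoots β' * q.scaleRoots ((D : 𝓞 ℚ⟮δ⟯) ^ l) := by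
    apply Polynomial.map_injective (res φ₀) (res_inj φ₀)
    have hqr : (q.scaleRoots ((D : 𝓞 ℚ⟮δ⟯) ^ l)).map (res φ₀) = X - C ((D : ℂ) ^ l * ρ) := by
      rw [hq, scale_X_sub_C, Polynomial.map_sub, map_X, Polynomial.map_C, map_mul, map_pow,
        map_intCast, map_intCast]
    rw [Polynomial.map_map, hcomp, hχ, Polynomial.map_mul, hP12, hqr]
  -- the parts
  have hsol : Sol (((f'.scaleRoots β * f'.scaleRoots β' *
      q.scaleRoots ((D : 𝓞 ℚ⟮δ⟯) ^ l))).map (algebraMap (𝓞 ℚ⟮δ⟯) ℚ⟮δ⟯)) (fun n => (u n : ℚ⟮δ⟯)) := by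
    have h1 := (chi_sol hu).map (Int.castRingHom ℚ⟮δ⟯)
    rw [← hP, Polynomial.map_map]
    have h2 : (algebraMap (𝓞 ℚ⟮δ⟯) ℚ⟮δ⟯).comp (algebraMap ℤ (𝓞 ℚ⟮δ⟯)) = Int.castRingHom ℚ⟮δ⟯ :=
      RingHom.ext_int _ _
    rw [h2]
    exact h1
  obtain ⟨s, t, r, hs, ht, hr, hy⟩ := H.parts hsol
  -- sizes
  have hd1 := hu.2.1
  set b := ‖(x : ℂ) + y * δ‖ with hb
  have hb0 : 0 ≤ b := norm_nonneg _
  have hρ1 : (1 : ℝ) ≤ |(ρ : ℝ)| := by exact_mod_cast Int.one_le_abs hρ0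
  have hD0 : D ≠ 0 := by
    rintro rfl
    apply hy0
    rw [hyz, zero_pow hm, zero_mul]
  have hD1 : (1 : ℝ) ≤ |(D : ℝ)| := by exact_mod_cast Int.one_le_abs hD0
  have hb2 : 1 ≤ b := (one_le_b (by nlinarith) hb0 hρ1 hD1 hσ hν hc2).1
  have h2l : (1 : ℝ) ≤ 2 ^ lsize p := one_le_pow₀ (by norm_num)
  have hsz : b ^ 2 * ‖(D : ℂ) ^ l * ρ‖ ≤ 2 ^ lsize p := by
    have h1 := congrArg (fun P : ℂ[X] => ‖P.coeff 0‖) hχ
    rw [coeff_map, chi_coeff_zero hd1, mul_coeff_zero, mul_coeff_zero, scale_coeff_zero,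
      scale_coeff_zero, hf.natDegree_map, coeff_map, coeff_sub, coeff_X_zero, coeff_C_zero,
      zero_sub, norm_mul, norm_mul, norm_mul, norm_mul, norm_pow, norm_pow, norm_neg,
      norm_sub_eq hd hδ, ← hb] at h1
    have hf1 : (1 : ℝ) ≤ ‖(algebraMap ℤ ℂ) (f.coeff 0)‖ := by
      rw [eq_intCast, Complex.norm_intCast]
      exact_mod_cast Int.one_le_abs hf0
    have hxm : b ≤ b ^ f.natDegree := le_self_pow₀ (by linarith) (by omega)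
    have h4 : b ^ 2 * ‖(D : ℂ) ^ l * ρ‖ ≤ ‖(algebraMap ℤ ℂ) (f.coeff 0)‖ * b ^ f.natDegree *
        (‖(algebraMap ℤ ℂ) (f.coeff 0)‖ * b ^ f.natDegree) * ‖(D : ℂ) ^ l * ρ‖ := by
      have h5 : b ≤ ‖(algebraMap ℤ ℂ) (f.coeff 0)‖ * b ^ f.natDegree :=
        hxm.trans (le_mul_of_one_le_left (by positivity) hf1)
      have h6 : b ^ 2 ≤ ‖(algebraMap ℤ ℂ) (f.coeff 0)‖ * b ^ f.natDegree *
          (‖(algebraMap ℤ ℂ) (f.coeff 0)‖ * b ^ f.natDegree) := by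
        rw [sq]
        exact mul_le_mul h5 h5 hb0 (by positivity)
      exact mul_le_mul_of_nonneg_right h6 (norm_nonneg _)
    refine h4.trans ?_
    rw [← h1, map_neg, norm_neg, eq_intCast, Complex.norm_intCast]
    have h7 : |((p.1.getD (p.1.length - 1) 0 : ℤ) : ℝ)| =
        ((p.1.getD (p.1.length - 1) 0).natAbs : ℝ) := by
      rw [Nat.cast_natAbs, Int.cast_abs]
    rw [h7]
    have h8 : (p.1.getD (p.1.length - 1) 0).natAbs ≤ 2 ^ lsize p := by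
      refine (natAbs_getD_le _ _).trans (le_trans ?_ (size_le p))
      unfold size
      omega
    exact_mod_cast h8
  have hDρ : ‖(D : ℂ) ^ l * ρ‖ = |(D : ℝ)| ^ l * |(ρ : ℝ)| := by
    rw [norm_mul, norm_pow, Complex.norm_intCast, Complex.norm_intCast]
  have hDl : |(D : ℝ)| ^ l ≤ 2 ^ lsize p := by
    refine le_trans ?_ hsz
    rw [hDρ]
    have h5 : 1 ≤ b ^ 2 := one_le_pow₀ hb2
    calc |(D : ℝ)| ^ l ≤ |(D : ℝ)| ^ l * |(ρ : ℝ)| := le_mul_of_one_le_right (by positivity) hρ1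
      _ ≤ b ^ 2 * (|(D : ℝ)| ^ l * |(ρ : ℝ)|) := le_mul_of_one_le_left (by positivity) h5
  have hbb : b ≤ 2 ^ lsize p := by
    refine le_trans ?_ hsz
    rw [hDρ]
    have h5 : 1 ≤ |(D : ℝ)| ^ l * |(ρ : ℝ)| :=
      one_le_mul_of_one_le_of_one_le (one_le_pow₀ hD1) hρ1
    calc b ≤ b ^ 2 := le_self_pow₀ hb2 (by norm_num)
      _ ≤ b ^ 2 * (|(D : ℝ)| ^ l * |(ρ : ℝ)|) := le_mul_of_one_le_right (by positivity) h5
  have hfin := data_bound H (c := 1) (A := lsize p) (fun φ => ?_) hu (T := 1) (j := 0) le_rfl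
    (by norm_num) ?_ ?_ hs ht hr ?_ (n := n) ?_ (ρ := 0) ?_ ?_
  · -- conclusion
    have hrn : r n = 0 := by
      have := hfin.2.2
      rw [this]
      simp
    have hr' : Sol (X - C (ρ : ℚ⟮δ⟯)) r := by
      have : q.map (algebraMap (𝓞 ℚ⟮δ⟯) ℚ⟮δ⟯) = X - C (ρ : ℚ⟮δ⟯) := by
        rw [hq, Polynomial.map_sub, map_X, Polynomial.map_C]
        congr 2
      rw [← this]
      exact hr
    have hr0 : r 0 = 0 := by
      rw [sol_linear hr' n] at hrn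
      exact (mul_eq_zero.1 hrn).resolve_left (pow_ne_zero _ (by exact_mod_cast hρ0))
    have hrz : ∀ k, r k = 0 := fun k => by rw [sol_linear hr' k, hr0, mul_zero]
    apply hnot
    have h1 : Sol ((f'.scaleRoots β * f'.scaleRoots β').map (algebraMap (𝓞 ℚ⟮δ⟯) ℚ⟮δ⟯))
        (fun n => (u n : ℚ⟮δ⟯)) := by
      have e1 : (fun n => (u n : ℚ⟮δ⟯)) = fun n => (β : ℚ⟮δ⟯) ^ n * s n + (β' : ℚ⟮δ⟯) ^ n * t n := by
        funext k
        rw [hy k, hrz k, mul_zero, add_zero]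
      rw [e1, Polynomial.map_mul, map_scale _ hf'm, map_scale _ hf'm]
      exact ((hs.scale _).mul_right _).add ((ht.scale _).mul_left _)
    have h2 := h1.map φ₀
    rw [Polynomial.map_map] at h2
    have h3 : φ₀.comp (algebraMap (𝓞 ℚ⟮δ⟯) ℚ⟮δ⟯) = res φ₀ := rfl
    rw [h3, hP12] at h2
    convert h2 using 1
    funext k
    rw [map_intCast]
  · obtain ⟨b1, b2⟩ := beta_norm hd hδ x y φ
    refine ⟨?_, b1.le.trans hbb, b2.le.trans hbb, ?_⟩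
    · simp only [map_one, norm_one]
      exact h2l
    · have e1 : φ ((((D : 𝓞 ℚ⟮δ⟯) ^ l : 𝓞 ℚ⟮δ⟯)) : ℚ⟮δ⟯) = (D : ℂ) ^ l := by
        show φ (algebraMap (𝓞 ℚ⟮δ⟯) ℚ⟮δ⟯ ((D : 𝓞 ℚ⟮δ⟯) ^ l)) = _
        rw [map_pow, map_intCast, map_pow, map_intCast]
      rw [e1, norm_pow, Complex.norm_intCast]
      exact hDl
  · have h1 := congrArg natDegree hP
    rw [(chi_monic p.1).natDegree_map, chi_natDegree,
      ((monic_scaleRoots hf'm β).mul (monic_scaleRoots hf'm β')).natDegree_mul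
      (monic_scaleRoots hqm _), (monic_scaleRoots hf'm β).natDegree_mul
      (monic_scaleRoots hf'm β'), natDegree_scaleRoots, natDegree_scaleRoots,
      natDegree_scaleRoots] at h1
    exact h1.ge
  · intro φ z hz
    refine ⟨z, ?_, by simp⟩
    rw [← hP, eval₂_map, hcomp] at hz
    exact (chi_root _ _).1 hz
  · intro k
    have := hy k
    simp only [map_one, one_pow, one_mul, zero_add]
    exact this
  · refine lt_of_le_of_lt ?_ hn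
    calc 220 * ν * p.1.length ^ 3 * Module.finrank ℚ ℚ⟮δ⟯ * (lsize p + 1 * lsize p)
        ≤ 220 * ν * p.1.length ^ 3 * 2 * (lsize p + 1 * lsize p) :=
          Nat.mul_le_mul_right _ (Nat.mul_le_mul_left _ (finrank_delta hδ))
      _ = 880 * ν * p.1.length ^ 3 * lsize p := by ring
  · intro φ
    simp
  · simp [h0]

end Pool.Agent.Work.MP_8d13b5_lc.Sc
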