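import Pool.Agent.Work.MP_8d13b5_lc.Bd.B05

set_option autoImplicit false

/-! From the inequality at one index to zeros of recurrence sequences, for an abstract
inequality. -/

namespace Pool.Agent.Work.MP_8d13b5_lc.Sc

open Polynomial Finset Pool.Agent.Work.MP_8d13b5_lc.Pd

/-- the hypotheses over a domain `R` with a family of embeddings -/
structure Abs {ι : Type*} [Fintype ι] {R : Type*} [CommRing R] (Φ : ι → (R →+* ℂ))
    (f g q : R[X]) (β β' D : R) (l : ℕ) (a w : ι → ℝ) (Bd : ℝ → ℕ → Prop) : Prop where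
  core : ∀ S : ℝ, 1 ≤ S → ∀ (n : ℕ) (s t r : R), (∀ j, ‖Φ j s‖ ≤ S * (2 * a j) ^ n) →
    (∀ j, ‖Φ j t‖ ≤ S * (2 * a j) ^ n) → (∀ j, ‖Φ j r‖ ≤ S * (2 * w j) ^ n) →
    β ^ n * s + β' ^ n * t + D ^ (l * n) * r = 0 → Bd S n → s = 0 ∧ t = 0 ∧ r = 0
  ev : ∀ S : ℝ, ∃ n₀ : ℕ, ∀ n, n₀ ≤ n → Bd S n
  fm : f.Monic
  gm : g.Monic
  qm : q.Monic
  f0 : f.coeff 0 ≠ 0
  g0 : g.coeff 0 ≠ 0
  q0 : q.coeff 0 ≠ 0
  a1 : ∀ j, 1 ≤ a j
  ha : ∀ j, ∀ z ∈ (f.map (Φ j)).roots, ‖z‖ ≤ a j
  hg : ∀ j, ∀ z ∈ (g.map (Φ j)).roots, ‖z‖ ≤ a j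
  w1 : ∀ j, 1 ≤ w j
  hw : ∀ j, ∀ z ∈ (q.map (Φ j)).roots, ‖z‖ ≤ w j

variable {ι : Type*} [Fintype ι] {R : Type*} [CommRing R] {Φ : ι → (R →+* ℂ)}
    {f g q : R[X]} {β β' D : R} {l : ℕ} {a w : ι → ℝ} {Bd : ℝ → ℕ → Prop}

/-- the three parts over `R` -/
theorem Abs.parts [IsDomain R] [Nonempty ι] (H : Abs Φ f g q β β' D l a w Bd)
    {s t r : ℕ → R} (hs : Sol f s) (ht : Sol g t) (hr : Sol q r) {U : ℝ} (hU : 1 ≤ U)
    (hs0 : ∀ j, ∀ i < f.natDegree, ‖Φ j (s i)‖ ≤ U)
    (ht0 : ∀ j, ∀ i < g.natDegree, ‖Φ j (t i)‖ ≤ U)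
    (hr0 : ∀ j, ∀ i < q.natDegree, ‖Φ j (r i)‖ ≤ U) {N : ℕ} (hfN : f.natDegree ≤ N)
    (hgN : g.natDegree ≤ N) (hqN : q.natDegree ≤ N) {n : ℕ}
    (heq : β ^ n * s n + β' ^ n * t n + D ^ (l * n) * r n = 0)
    (hbig : Bd (U * 2 ^ N) n) :
    s n = 0 ∧ t n = 0 ∧ r n = 0 := by
  have hU0 : 0 ≤ U := by linarith
  refine H.core (U * 2 ^ N)
    (one_le_mul_of_one_le_of_one_le hU (one_le_pow₀ (by norm_num))) n _ _ _ ?_ ?_ ?_ heq hbig
  · intro j
    refine (growth_ring (H.a1 j) (Φ j) H.fm (H.ha j) hs hU0 (hs0 j) n).trans ?_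
    have ha := H.a1 j
    apply mul_le_mul_of_nonneg_right _ (by positivity)
    exact mul_le_mul_of_nonneg_left (pow_le_pow_right₀ (by norm_num) hfN) hU0
  · intro j
    refine (growth_ring (H.a1 j) (Φ j) H.gm (H.hg j) ht hU0 (ht0 j) n).trans ?_
    have ha := H.a1 j
    apply mul_le_mul_of_nonneg_right _ (by positivity)
    exact mul_le_mul_of_nonneg_left (pow_le_pow_right₀ (by norm_num) hgN) hU0
  · intro j
    refine (growth_ring (H.w1 j) (Φ j) H.qm (H.hw j) hr hU0 (hr0 j) n).trans ?_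
    have hw := H.w1 j
    apply mul_le_mul_of_nonneg_right _ (by positivity)
    exact mul_le_mul_of_nonneg_left (pow_le_pow_right₀ (by norm_num) hqN) hU0

theorem Abs.det_ne_zero [IsDomain R] [Nonempty ι]
    (H : Abs Φ f g q β β' D l a w Bd) : (mat f g q β β' D l).det ≠ 0 := by
  classical
  intro hdet
  obtain ⟨v, hv0, hv⟩ := Matrix.exists_mulVec_eq_zero_iff.2 hdet
  set s : ℕ → R := fun n => ∑ c ∈ range f.natDegree, cf f n c * ext (fun c => v (Sum.inl c)) c
    with hsdef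
  set t : ℕ → R := fun n => ∑ c ∈ range g.natDegree,
    cf g n c * ext (fun c => v (Sum.inr (Sum.inl c))) c with htdef
  set r : ℕ → R := fun n => ∑ c ∈ range q.natDegree,
    cf q n c * ext (fun c => v (Sum.inr (Sum.inr c))) c with hrdef
  have hs : Sol f s := sol_of_init H.fm _
  have ht : Sol g t := sol_of_init H.gm _
  have hr : Sol q r := sol_of_init H.qm _
  have hy := sol_prod (β := β) (β' := β') (D := D) (l := l) hs ht hr
  have hy0 : ∀ n, β ^ n * s n + β' ^ n * t n + D ^ (l * n) * r n = 0 := by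
    apply hy.eq_zero (prod_monic H.fm H.gm H.qm _ _ _)
    intro i hi
    rw [prod_natDegree H.fm H.gm H.qm] at hi
    obtain ⟨j, hj⟩ := exists_row hi
    have h1 : ∑ x, mat f g q β β' D l j x * v x = 0 := congrFun hv j
    have h2 : ∑ x, ent f g q β β' D l i x * v x = 0 := by
      rw [← h1]
      refine sum_congr rfl fun x _ => ?_
      rw [mat, hj]
    rw [ent_sum] at h2
    rw [← h2, sum_ext, sum_ext, sum_ext]
  obtain ⟨U, hU1, hU⟩ := exists_bound Φ v
  have hsi : ∀ i (hi : i < f.natDegree), s i = v (Sum.inl ⟨i, hi⟩) := by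
    intro i hi
    rw [hsdef]
    simp only
    rw [init_of_init H.fm _ hi]
    unfold Pd.ext
    rw [dif_pos hi]
  have hti : ∀ i (hi : i < g.natDegree), t i = v (Sum.inr (Sum.inl ⟨i, hi⟩)) := by
    intro i hi
    rw [htdef]
    simp only
    rw [init_of_init H.gm _ hi]
    unfold Pd.ext
    rw [dif_pos hi]
  have hri : ∀ i (hi : i < q.natDegree), r i = v (Sum.inr (Sum.inr ⟨i, hi⟩)) := by
    intro i hi
    rw [hrdef]
    simp only
    rw [init_of_init H.qm _ hi]
    unfold Pd.ext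
    rw [dif_pos hi]
  set N := f.natDegree + g.natDegree + q.natDegree with hN
  obtain ⟨n₀, hn₀⟩ := H.ev (U * 2 ^ N)
  have hzero : ∀ n, n₀ ≤ n → s n = 0 ∧ t n = 0 ∧ r n = 0 := by
    intro n hn
    refine H.parts hs ht hr hU1 (fun j i hi => ?_) (fun j i hi => ?_) (fun j i hi => ?_) (N := N)
      (by omega) (by omega) (by omega) (hy0 n) (hn₀ n hn)
    · rw [hsi i hi]
      exact hU j _
    · rw [hti i hi]
      exact hU j _
    · rw [hri i hi]
      exact hU j _
  have hs0 := hs.zero_of_eventually H.f0 (fun n hn => (hzero n hn).1)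
  have ht0 := ht.zero_of_eventually H.g0 (fun n hn => (hzero n hn).2.1)
  have hr0 := hr.zero_of_eventually H.q0 (fun n hn => (hzero n hn).2.2)
  apply hv0
  funext j
  rcases j with j | j | j
  · rw [← hsi j j.2, hs0]; rfl
  · rw [← hti j j.2, ht0]; rfl
  · rw [← hri j j.2, hr0]; rfl

/-- zeros are common zeros of the parts -/
theorem Abs.zero_parts [IsDomain R] [Nonempty ι] {K : Type*} [Field K] (ψ : R →+* K)
    (hψ : Function.Injective ψ) (H : Abs Φ f g q β β' D l a w Bd)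
    {s t r : ℕ → K} (hs : Sol (f.map ψ) s) (ht : Sol (g.map ψ) t) (hr : Sol (q.map ψ) r)
    {y : ℕ → R} (hy : ∀ n, ψ (y n) = ψ β ^ n * s n + ψ β' ^ n * t n + ψ D ^ (l * n) * r n)
    {Y B U0 : ℝ} (hY1 : 1 ≤ Y) (hYβ : ∀ j, ‖Φ j β‖ ≤ Y) (hYβ' : ∀ j, ‖Φ j β'‖ ≤ Y)
    (hYD : ∀ j, ‖Φ j (D ^ l)‖ ≤ Y) (hB1 : 1 ≤ B)
    (hBf : ∀ j, ∀ z ∈ ((f.scaleRoots β).map (Φ j)).roots, ‖z‖ ≤ B)
    (hBg : ∀ j, ∀ z ∈ ((g.scaleRoots β').map (Φ j)).roots, ‖z‖ ≤ B)
    (hBq : ∀ j, ∀ z ∈ ((q.scaleRoots (D ^ l)).map (Φ j)).roots, ‖z‖ ≤ B)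
    {N : ℕ} (hN : f.natDegree + (g.natDegree + q.natDegree) = N) (hN1 : 1 ≤ N)
    (hU1 : 1 ≤ U0) (hy0 : ∀ j, ∀ i < N, ‖Φ j (y i)‖ ≤ U0) {n : ℕ} {ρ : R}
    (hρ : ∀ j, ‖Φ j ρ‖ ≤ (2 * w j) ^ n) (hn : y n = D ^ (l * n) * ρ)
    (hbig : Bd (2 * ((N * (N.factorial * (Y ^ N * 2 ^ N * (2 * B) ^ N) ^ N * U0)) * 2 ^ N)) n) :
    s n = 0 ∧ t n = 0 ∧ r n = ψ ρ := by
  classical
  set M := mat f g q β β' D l with hM
  have hdet : M.det ≠ 0 := H.det_ne_zero
  set v : Ix f g q → R := M.adjugate.mulVec (fun i => y (row f g q i)) with hv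
  set x : Ix f g q → K := Sum.elim (fun c => s c) (Sum.elim (fun c => t c) (fun c => r c)) with hx
  -- values through the initial data over `K`
  have hsn : ∀ n, s n = ∑ c : Fin f.natDegree, ψ (cf f n c) * s c := by
    intro n
    rw [hs.expand (H.fm.map ψ) n, H.fm.natDegree_map, Finset.sum_range]
    exact sum_congr rfl fun c _ => by rw [cf_map H.fm]
  have htn : ∀ n, t n = ∑ c : Fin g.natDegree, ψ (cf g n c) * t c := by
    intro n
    rw [ht.expand (H.gm.map ψ) n, H.gm.natDegree_map, Finset.sum_range]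
    exact sum_congr rfl fun c _ => by rw [cf_map H.gm]
  have hrn : ∀ n, r n = ∑ c : Fin q.natDegree, ψ (cf q n c) * r c := by
    intro n
    rw [hr.expand (H.qm.map ψ) n, H.qm.natDegree_map, Finset.sum_range]
    exact sum_congr rfl fun c _ => by rw [cf_map H.qm]
  have hMx : (M.map ψ).mulVec x = fun i => ψ (y (row f g q i)) := by
    funext i
    show ∑ j, ψ (M i j) * x j = _
    rw [hy, Fintype.sum_sum_type, Fintype.sum_sum_type, ← add_assoc]
    congr 1
    · congr 1
      · conv_rhs => rw [hsn, mul_sum]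
        refine sum_congr rfl fun c _ => ?_
        rw [hM, hx]
        simp only [mat, ent, Sum.elim_inl, map_mul, map_pow]
        ring
      · conv_rhs => rw [htn, mul_sum]
        refine sum_congr rfl fun c _ => ?_
        rw [hM, hx]
        simp only [mat, ent, Sum.elim_inl, Sum.elim_inr, map_mul, map_pow]
        ring
    · conv_rhs => rw [hrn, mul_sum]
      refine sum_congr rfl fun c _ => ?_
      rw [hM, hx]
      simp only [mat, ent, Sum.elim_inr, map_mul, map_pow, pow_mul]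
      ring
  have hvx : ∀ j, ψ (v j) = ψ M.det * x j := by
    intro j
    have h1 : (fun j => ψ (v j)) = (M.map ψ).adjugate.mulVec (fun i => ψ (y (row f g q i))) := by
      funext j
      have h2 : (M.map ψ).adjugate = M.adjugate.map ψ := by
        have := ψ.map_adjugate M
        exact this.symm
      rw [h2]
      show ψ (∑ i, M.adjugate j i * y (row f g q i)) = ∑ i, ψ (M.adjugate j i) * ψ (y (row f g q i))
      rw [map_sum]
      exact sum_congr rfl fun i _ => map_mul _ _ _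
    have h3 := congrFun h1 j
    rw [← hMx, Matrix.mulVec_mulVec, Matrix.adjugate_mul, Matrix.smul_mulVec, Matrix.one_mulVec,
      Pi.smul_apply, smul_eq_mul] at h3
    rw [h3]
    congr 1
    have := ψ.map_det M
    exact this.symm
  set s' : ℕ → R := fun n => ∑ c ∈ range f.natDegree, cf f n c * ext (fun c => v (Sum.inl c)) c
    with hs'def
  set t' : ℕ → R := fun n => ∑ c ∈ range g.natDegree,
    cf g n c * ext (fun c => v (Sum.inr (Sum.inl c))) c with ht'def
  set r' : ℕ → R := fun n => ∑ c ∈ range q.natDegree,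
    cf q n c * ext (fun c => v (Sum.inr (Sum.inr c))) c with hr'def
  have hs' : Sol f s' := sol_of_init H.fm _
  have ht' : Sol g t' := sol_of_init H.gm _
  have hr' : Sol q r' := sol_of_init H.qm _
  have es : ∀ n, ψ (s' n) = ψ M.det * s n := by
    intro n
    rw [hs'def]
    simp only
    rw [← sum_ext, map_sum, hsn n, mul_sum]
    refine sum_congr rfl fun c _ => ?_
    rw [map_mul, hvx]
    simp only [hx, Sum.elim_inl]
    ring
  have et : ∀ n, ψ (t' n) = ψ M.det * t n := by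
    intro n
    rw [ht'def]
    simp only
    rw [← sum_ext, map_sum, htn n, mul_sum]
    refine sum_congr rfl fun c _ => ?_
    rw [map_mul, hvx]
    simp only [hx, Sum.elim_inl, Sum.elim_inr]
    ring
  have er : ∀ n, ψ (r' n) = ψ M.det * r n := by
    intro n
    rw [hr'def]
    simp only
    rw [← sum_ext, map_sum, hrn n, mul_sum]
    refine sum_congr rfl fun c _ => ?_
    rw [map_mul, hvx]
    simp only [hx, Sum.elim_inr]
    ring
  have heq : β ^ n * s' n + β' ^ n * t' n + D ^ (l * n) * (r' n - M.det * ρ) = 0 := by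
    apply hψ
    rw [map_zero, map_add, map_add, map_mul, map_mul, map_mul, map_pow, map_pow, map_pow, es, et,
      map_sub, map_mul, er]
    have := hy n
    rw [hn, map_mul, map_pow] at this
    linear_combination (-ψ M.det) * this
  -- the size of the coefficients
  set X : ℝ := Y ^ N * 2 ^ N * (2 * B) ^ N with hX
  have hX1 : 1 ≤ X := by
    rw [hX]
    exact one_le_mul_of_one_le_of_one_le (one_le_mul_of_one_le_of_one_le (one_le_pow₀ hY1)
      (one_le_pow₀ (by norm_num))) (one_le_pow₀ (by linarith))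
  have hent : ∀ d, ∀ i j, ‖Φ d (M i j)‖ ≤ X := by
    intro d i j
    have hi : row f g q i < N := by rw [← hN]; exact row_lt i
    rcases j with j | j | j
    · exact block_bound H.fm β (Φ d) hY1 hB1 (hYβ d) (hBf d) (by omega) hi j.2
    · exact block_bound H.gm β' (Φ d) hY1 hB1 (hYβ' d) (hBg d) (by omega) hi j.2
    · exact block_bound H.qm (D ^ l) (Φ d) hY1 hB1 (hYD d) (hBq d) (by omega) hi j.2
  have hcard : Fintype.card (Ix f g q) = N := by rw [card_Ix, hN]
  have hvb : ∀ d, ∀ j, ‖Φ d (v j)‖ ≤ N * (N.factorial * X ^ N * U0) := by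
    intro d j
    have h1 : v j = ∑ i, M.adjugate j i * y (row f g q i) := rfl
    rw [h1, map_sum]
    refine (norm_sum_le _ _).trans ?_
    have h2 : ∀ i ∈ (univ : Finset (Ix f g q)), ‖Φ d (M.adjugate j i * y (row f g q i))‖ ≤
        N.factorial * X ^ N * U0 := by
      intro i _
      rw [map_mul, norm_mul]
      have h3 := adj_bound M (Φ d) hX1 (hent d) j i
      rw [hcard] at h3
      exact mul_le_mul h3 (hy0 d _ (by rw [← hN]; exact row_lt i)) (norm_nonneg _)
        (by positivity)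
    refine (sum_le_sum h2).trans (le_of_eq ?_)
    rw [sum_const, card_univ, hcard, nsmul_eq_mul]
  have hUv : 1 ≤ N * (N.factorial * X ^ N * U0) := by
    refine one_le_mul_of_one_le_of_one_le (by exact_mod_cast hN1)
      (one_le_mul_of_one_le_of_one_le (one_le_mul_of_one_le_of_one_le
        (by exact_mod_cast N.factorial_pos) (one_le_pow₀ hX1)) hU1)
  have hs'b : ∀ d, ∀ i < f.natDegree, ‖Φ d (s' i)‖ ≤ N * (N.factorial * X ^ N * U0) := by
    intro d i hi
    have : s' i = v (Sum.inl ⟨i, hi⟩) := by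
      rw [hs'def]
      simp only
      rw [init_of_init H.fm _ hi]
      unfold Pd.ext
      rw [dif_pos hi]
    rw [this]
    exact hvb d _
  have ht'b : ∀ d, ∀ i < g.natDegree, ‖Φ d (t' i)‖ ≤ N * (N.factorial * X ^ N * U0) := by
    intro d i hi
    have : t' i = v (Sum.inr (Sum.inl ⟨i, hi⟩)) := by
      rw [ht'def]
      simp only
      rw [init_of_init H.gm _ hi]
      unfold Pd.ext
      rw [dif_pos hi]
    rw [this]
    exact hvb d _
  have hr'b : ∀ d, ∀ i < q.natDegree, ‖Φ d (r' i)‖ ≤ N * (N.factorial * X ^ N * U0) := by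
    intro d i hi
    have : r' i = v (Sum.inr (Sum.inr ⟨i, hi⟩)) := by
      rw [hr'def]
      simp only
      rw [init_of_init H.qm _ hi]
      unfold Pd.ext
      rw [dif_pos hi]
    rw [this]
    exact hvb d _
  set V : ℝ := N * (N.factorial * X ^ N * U0) with hV
  have hV0 : 0 ≤ V := by linarith
  have hdetb : ∀ d, ‖Φ d M.det‖ ≤ V := by
    intro d
    have h1 := Matrix.det_le (abv := NormedField.toAbsoluteValue ℂ) (x := X)
      (A := (Φ d).mapMatrix M) (fun i j => hent d i j)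
    rw [← RingHom.map_det, nsmul_eq_mul, hcard] at h1
    refine h1.trans ?_
    have h2 : (1 : ℝ) ≤ N := by exact_mod_cast hN1
    have h3 : 0 ≤ (N.factorial : ℝ) * X ^ N := by positivity
    calc (N.factorial : ℝ) * X ^ N ≤ (N.factorial : ℝ) * X ^ N * U0 := le_mul_of_one_le_right h3 hU1
      _ ≤ V := le_mul_of_one_le_left (by positivity) h2
  have hfin := H.core (2 * (V * 2 ^ N)) ?_ n (s' n) (t' n) (r' n - M.det * ρ)
    (fun d => ?_) (fun d => ?_) (fun d => ?_) heq ?_
  · have hd : ψ M.det ≠ 0 := fun h => hdet (hψ (by rw [h, map_zero]))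
    refine ⟨?_, ?_, ?_⟩
    · have := es n
      rw [hfin.1, map_zero] at this
      exact (mul_eq_zero.1 this.symm).resolve_left hd
    · have := et n
      rw [hfin.2.1, map_zero] at this
      exact (mul_eq_zero.1 this.symm).resolve_left hd
    · have h1 := er n
      rw [sub_eq_zero.1 hfin.2.2, map_mul] at h1
      exact (mul_left_cancel₀ hd h1).symm
  · have h1 : 1 ≤ V * 2 ^ N := one_le_mul_of_one_le_of_one_le hUv (one_le_pow₀ (by norm_num))
    linarith
  · have ha := H.a1 d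
    refine (growth_ring ha (Φ d) H.fm (H.ha d) hs' hV0 (hs'b d) n).trans ?_
    apply mul_le_mul_of_nonneg_right _ (by positivity)
    have h1 : V * 2 ^ f.natDegree ≤ V * 2 ^ N :=
      mul_le_mul_of_nonneg_left (pow_le_pow_right₀ (by norm_num) (by omega)) hV0
    have h2 : 0 ≤ V * 2 ^ N := by positivity
    linarith
  · have ha := H.a1 d
    refine (growth_ring ha (Φ d) H.gm (H.hg d) ht' hV0 (ht'b d) n).trans ?_
    apply mul_le_mul_of_nonneg_right _ (by positivity)
    have h1 : V * 2 ^ g.natDegree ≤ V * 2 ^ N :=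
      mul_le_mul_of_nonneg_left (pow_le_pow_right₀ (by norm_num) (by omega)) hV0
    have h2 : 0 ≤ V * 2 ^ N := by positivity
    linarith
  · have hw := H.w1 d
    have hwn : 0 ≤ (2 * w d) ^ n := by positivity
    have h1 := growth_ring hw (Φ d) H.qm (H.hw d) hr' hV0 (hr'b d) n
    have h2 : V * 2 ^ q.natDegree ≤ V * 2 ^ N :=
      mul_le_mul_of_nonneg_left (pow_le_pow_right₀ (by norm_num) (by omega)) hV0
    have h3 : V ≤ V * 2 ^ N := le_mul_of_one_le_right hV0 (one_le_pow₀ (by norm_num))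
    rw [map_sub, map_mul]
    refine (norm_sub_le _ _).trans ?_
    rw [norm_mul]
    calc ‖Φ d (r' n)‖ + ‖Φ d M.det‖ * ‖Φ d ρ‖
        ≤ V * 2 ^ N * (2 * w d) ^ n + V * 2 ^ N * (2 * w d) ^ n := by
          refine add_le_add (h1.trans (mul_le_mul_of_nonneg_right h2 hwn)) ?_
          exact mul_le_mul ((hdetb d).trans h3) (hρ d) (norm_nonneg _) (by positivity)
      _ = 2 * (V * 2 ^ N) * (2 * w d) ^ n := by ring
  · exact hbig


/-- every solution is a sum of three parts -/
theorem Abs.exists_parts [IsDomain R] [Nonempty ι] {K : Type*} [Field K] (ψ : R →+* K)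
    (hψ : Function.Injective ψ) (H : Abs Φ f g q β β' D l a w Bd) {y : ℕ → K}
    (hy : Sol ((f.scaleRoots β * g.scaleRoots β' * q.scaleRoots (D ^ l)).map ψ) y) :
    ∃ s t r : ℕ → K, Sol (f.map ψ) s ∧ Sol (g.map ψ) t ∧ Sol (q.map ψ) r ∧
      ∀ n, y n = ψ β ^ n * s n + ψ β' ^ n * t n + (ψ D ^ l) ^ n * r n := by
  classical
  set M := mat f g q β β' D l with hM
  have hdet : (M.map ψ).det ≠ 0 := by
    have h1 : ψ M.det = (M.map ψ).det := ψ.map_det M
    rw [← h1]
    intro h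
    exact H.det_ne_zero (hψ (by rw [h, map_zero]))
  have hunit : IsUnit (M.map ψ).det := isUnit_iff_ne_zero.2 hdet
  set x : Ix f g q → K := (M.map ψ)⁻¹.mulVec (fun i => y (row f g q i)) with hx
  have hMx : (M.map ψ).mulVec x = fun i => y (row f g q i) := by
    rw [hx, Matrix.mulVec_mulVec, Matrix.mul_nonsing_inv _ hunit, Matrix.one_mulVec]
  have hf' := H.fm.map ψ
  have hg' := H.gm.map ψ
  have hq' := H.qm.map ψ
  set s : ℕ → K := fun n => ∑ c ∈ range (f.map ψ).natDegree,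
    cf (f.map ψ) n c * ext (fun c => x (Sum.inl c)) c with hsdef
  set t : ℕ → K := fun n => ∑ c ∈ range (g.map ψ).natDegree,
    cf (g.map ψ) n c * ext (fun c => x (Sum.inr (Sum.inl c))) c with htdef
  set r : ℕ → K := fun n => ∑ c ∈ range (q.map ψ).natDegree,
    cf (q.map ψ) n c * ext (fun c => x (Sum.inr (Sum.inr c))) c with hrdef
  have hs : Sol (f.map ψ) s := sol_of_init hf' _
  have ht : Sol (g.map ψ) t := sol_of_init hg' _
  have hr : Sol (q.map ψ) r := sol_of_init hq' _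
  refine ⟨s, t, r, hs, ht, hr, ?_⟩
  have hz := sol_prod (β := ψ β) (β' := ψ β') (D := ψ D) (l := l) hs ht hr
  have hP : (f.scaleRoots β * g.scaleRoots β' * q.scaleRoots (D ^ l)).map ψ =
      (f.map ψ).scaleRoots (ψ β) * ((g.map ψ).scaleRoots (ψ β') *
        (q.map ψ).scaleRoots (ψ D ^ l)) := by
    rw [Polynomial.map_mul, Polynomial.map_mul, map_scale ψ H.fm, map_scale ψ H.gm,
      map_scale ψ H.qm, map_pow, mul_assoc]
  rw [hP] at hy
  intro n
  have := hy.ext (prod_monic hf' hg' hq' _ _ _) hz ?_ n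
  · rw [this, pow_mul]
  intro i hi
  rw [prod_natDegree hf' hg' hq', H.fm.natDegree_map, H.gm.natDegree_map,
    H.qm.natDegree_map] at hi
  obtain ⟨j, hj⟩ := exists_row hi
  have h1 : ∑ x', ψ (M j x') * x x' = y (row f g q j) := congrFun hMx j
  rw [hj] at h1
  rw [← h1, Fintype.sum_sum_type, Fintype.sum_sum_type, ← add_assoc]
  congr 1
  · congr 1
    · rw [hsdef]
      simp only
      rw [H.fm.natDegree_map, Finset.sum_range, mul_sum]
      refine sum_congr rfl fun c _ => ?_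
      rw [hM]
      simp only [mat, ent, Sum.elim_inl, map_mul, map_pow, hj, cf_map H.fm, Pd.ext]
      rw [dif_pos c.2]
      ring
    · rw [htdef]
      simp only
      rw [H.gm.natDegree_map, Finset.sum_range, mul_sum]
      refine sum_congr rfl fun c _ => ?_
      rw [hM]
      simp only [mat, ent, Sum.elim_inl, Sum.elim_inr, map_mul, map_pow, hj, cf_map H.gm, Pd.ext]
      rw [dif_pos c.2]
      ring
  · rw [hrdef]
    simp only
    rw [H.qm.natDegree_map, Finset.sum_range, mul_sum]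
    refine sum_congr rfl fun c _ => ?_
    rw [hM]
    simp only [mat, ent, Sum.elim_inr, map_mul, map_pow, hj, cf_map H.qm, Pd.ext, pow_mul]
    rw [dif_pos c.2]
    ring


end Pool.Agent.Work.MP_8d13b5_lc.Sc
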