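import Pool.Agent.Work.MP_8d13b5_lc.Bd.B03

set_option autoImplicit false

/-! The main inequality. -/

namespace Pool.Agent.Work.MP_8d13b5_lc.Sc

open Finset Polynomial

/-- the local data at the embeddings -/
structure SLoc {ι : Type*} [Fintype ι] {R : Type*} [CommRing R] (Φ : ι → (R →+* ℂ))
    (β β' D : R) (l m σ ν : ℕ) (h ω E M : ι → ℝ) (G : ℝ) : Prop where
  inj : ∀ j, Function.Injective (Φ j)
  norm : ∀ x : R, x ≠ 0 → 1 ≤ ∏ j, ‖Φ j x‖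
  h1 : ∀ j, 1 ≤ h j
  ω1 : ∀ j, 1 ≤ ω j
  E1 : ∀ j, 1 ≤ E j
  M1 : ∀ j, 1 ≤ M j
  hG : ∀ j, h j ≤ G
  MG : ∀ j, M j ≤ G
  βM : ∀ j, ‖Φ j β‖ ≤ M j
  β'M : ∀ j, ‖Φ j β'‖ ≤ M j
  close : ∀ j, E j = 1 ∨ (E j * ‖Φ j β - Φ j β'‖ ≤ ‖Φ j β'‖ ∧
    E j ^ σ * (ω j * ‖Φ j D‖ ^ l) ^ ν ≤ (2 * ‖Φ j β'‖) ^ ν)
  smallβ : ∏ j, (2 * ω j) ≤ ∏ j, ‖Φ j β‖
  smallβ' : ∏ j, (2 * ω j) ≤ ∏ j, ‖Φ j β'‖
  large : ∏ j, ((256 * h j ^ 2) ^ (2 * σ * ν) * M j) ≤
    ∏ j, (‖Φ j D‖ ^ (2 * σ * m) * E j ^ (2 * σ))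

theorem four_pow (x : ℕ) (hx : 28 ≤ x) : (4 * x) ^ 4 ≤ 2 ^ x := by
  induction x, hx using Nat.le_induction with
  | base => norm_num
  | succ x hx ih =>
    have h1 : (4 * (x + 1)) ^ 4 ≤ 2 * (4 * x) ^ 4 := by
      have h2 : 6 * (x + 1) ≤ 7 * x := by omega
      have h3 : (6 * (x + 1)) ^ 4 ≤ (7 * x) ^ 4 := Nat.pow_le_pow_left h2 4
      have h4 : (6 * (x + 1)) ^ 4 = 1296 * (x + 1) ^ 4 := by rw [mul_pow]; norm_num
      have h5 : (7 * x) ^ 4 = 2401 * x ^ 4 := by rw [mul_pow]; norm_num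
      have h6 : (4 * (x + 1)) ^ 4 = 256 * (x + 1) ^ 4 := by rw [mul_pow]; norm_num
      have h7 : (4 * x) ^ 4 = 256 * x ^ 4 := by rw [mul_pow]; norm_num
      omega
    calc (4 * (x + 1)) ^ 4 ≤ 2 * (4 * x) ^ 4 := h1
      _ ≤ 2 * 2 ^ x := Nat.mul_le_mul_left _ ih
      _ = 2 ^ (x + 1) := by rw [pow_succ]; ring

theorem factorial_bd {x : ℕ} (hx : 28 ≤ x) : (4 * x).factorial ≤ 2 ^ (x ^ 2) := by
  calc (4 * x).factorial ≤ (4 * x) ^ (4 * x) := Nat.factorial_le_pow _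
    _ = ((4 * x) ^ 4) ^ x := by rw [pow_mul]
    _ ≤ (2 ^ x) ^ x := Nat.pow_le_pow_left (four_pow x hx) x
    _ = 2 ^ (x ^ 2) := by rw [← pow_mul, sq]

/-- the numerical part -/
theorem numeric {σ ϱ ν n P Q : ℕ} {S G c : ℝ} (hσ : 1 ≤ σ) (hν : 1 ≤ ν) (hϱ : 28 ≤ ϱ)
    (hn : n + 1 ≤ 4 * ν * (ϱ + 1))
    (hP : P ≤ 2 * σ * ϱ ^ 2 + 4 * σ * ϱ) (hQ : Q ≤ 2 * σ ^ 2 * ϱ + 3 * σ ^ 2)
    (hS : 1 ≤ S) (hG : 1 ≤ G) (hc0 : 0 ≤ c)
    (hc : c ≤ 2 ^ (18 * (ν * (σ ^ 2 * ϱ ^ 2)) + 7 * (ν * (σ ^ 2 * ϱ))))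
    (hbig : 2 ^ (33 * ν) * S ^ 3 * G ^ (25 * ν) ≤ 2 ^ (3 * ν * ϱ)) :
    (2 * (2 * σ * ϱ)).factorial * (c * 2 ^ P * (2 ^ (n + 1) * S) ^ Q) *
      G ^ (4 * σ * ϱ + 21 * (ν * (σ ^ 2 * ϱ))) <
      256 ^ (ν * (2 * σ * ϱ * (2 * σ * ϱ))) := by
  set x := σ ^ 2 * ϱ with hx
  set w := ν * x with hw
  have hx1 : 1 ≤ x := Nat.one_le_iff_ne_zero.2 (by positivity)
  have hσ2 : σ ≤ σ ^ 2 := Nat.le_self_pow (by norm_num) σ
  have hsx : σ * ϱ ≤ x := Nat.mul_le_mul_right _ hσ2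
  have hxw : x ≤ w := Nat.le_mul_of_pos_left _ hν
  have hw1 : 1 ≤ w := hx1.trans hxw
  have hf : ((2 * (2 * σ * ϱ)).factorial : ℝ) ≤ 2 ^ (w * ϱ) := by
    have h1 : 28 ≤ σ * ϱ := by nlinarith
    have h2 := factorial_bd h1
    have e1 : 2 * (2 * σ * ϱ) = 4 * (σ * ϱ) := by ring
    have e2 : (σ * ϱ) ^ 2 = x * ϱ := by rw [hx]; ring
    rw [e1]
    rw [e2] at h2
    have h3 : 2 ^ (x * ϱ) ≤ 2 ^ (w * ϱ) :=
      Nat.pow_le_pow_right (by norm_num) (Nat.mul_le_mul_right _ hxw)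
    exact_mod_cast h2.trans h3
  have hc' : c ≤ 2 ^ (18 * (w * ϱ) + 7 * w) := by
    refine hc.trans (le_of_eq ?_)
    congr 1
    rw [hw, hx]
    ring
  have hP' : (2 : ℝ) ^ P ≤ 2 ^ (2 * (w * ϱ) + 4 * w) := by
    apply pow_le_pow_right₀ (by norm_num)
    refine hP.trans ?_
    have h1 : σ * ϱ * ϱ ≤ w * ϱ := Nat.mul_le_mul_right _ (hsx.trans hxw)
    nlinarith
  have hσx : 28 * σ ^ 2 ≤ x := by
    rw [hx, mul_comm]
    exact Nat.mul_le_mul_left _ hϱ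
  have hQ3 : Q ≤ 3 * x := by
    refine hQ.trans ?_
    rw [mul_assoc, ← hx]
    omega
  have hQ' : (2 ^ (n + 1) * S) ^ Q ≤ 2 ^ (8 * (w * ϱ) + 21 * w) * S ^ (3 * x) := by
    rw [mul_pow, ← pow_mul]
    apply mul_le_mul _ (pow_le_pow_right₀ hS hQ3) (by positivity) (by positivity)
    apply pow_le_pow_right₀ (by norm_num)
    have h1 : (n + 1) * Q ≤ 4 * ν * (ϱ + 1) * (2 * σ ^ 2 * ϱ + 3 * σ ^ 2) :=
      Nat.mul_le_mul hn hQ
    refine h1.trans ?_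
    have e1 : 4 * ν * (ϱ + 1) * (2 * σ ^ 2 * ϱ + 3 * σ ^ 2) =
        8 * (w * ϱ) + 20 * w + 12 * (ν * σ ^ 2) := by
      rw [hw, hx]
      ring
    have h2 : 28 * (ν * σ ^ 2) ≤ w := by
      calc 28 * (ν * σ ^ 2) = ν * (28 * σ ^ 2) := by ring
        _ ≤ w := Nat.mul_le_mul_left _ hσx
    omega
  have hG' : G ^ (4 * σ * ϱ + 21 * w) ≤ G ^ (25 * w) := by
    apply pow_le_pow_right₀ hG
    have : 4 * σ * ϱ = 4 * (σ * ϱ) := by ring
    omega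
  have htot : (2 * (2 * σ * ϱ)).factorial * (c * 2 ^ P * (2 ^ (n + 1) * S) ^ Q) *
      G ^ (4 * σ * ϱ + 21 * w) ≤
      2 ^ (w * ϱ) * (2 ^ (18 * (w * ϱ) + 7 * w) * 2 ^ (2 * (w * ϱ) + 4 * w) *
        (2 ^ (8 * (w * ϱ) + 21 * w) * S ^ (3 * x))) * G ^ (25 * w) := by
    apply mul_le_mul _ hG' (by positivity) (by positivity)
    apply mul_le_mul hf _ (by positivity) (by positivity)
    apply mul_le_mul _ hQ' (by positivity) (by positivity)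
    exact mul_le_mul hc' hP' (by positivity) (by positivity)
  refine htot.trans_lt ?_
  have e1 : (2 : ℝ) ^ (w * ϱ) * (2 ^ (18 * (w * ϱ) + 7 * w) * 2 ^ (2 * (w * ϱ) + 4 * w) *
        (2 ^ (8 * (w * ϱ) + 21 * w) * S ^ (3 * x))) * G ^ (25 * w) =
      2 ^ (29 * (w * ϱ)) * (2 ^ (32 * ν) * S ^ 3 * G ^ (25 * ν)) ^ x := by
    rw [mul_pow, mul_pow, ← pow_mul, ← pow_mul, ← pow_mul]
    have e2 : 29 * (w * ϱ) = w * ϱ + 18 * (w * ϱ) + 2 * (w * ϱ) + 8 * (w * ϱ) := by ring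
    have e3 : 32 * ν * x = 7 * w + 4 * w + 21 * w := by rw [hw]; ring
    have e4 : 25 * ν * x = 25 * w := by rw [hw]; ring
    rw [e2, e3, e4]
    simp only [pow_add]
    ring
  rw [e1]
  have h1 : 2 ^ (32 * ν) * S ^ 3 * G ^ (25 * ν) * 2 ≤ 2 ^ (3 * ν * ϱ) := by
    refine le_trans ?_ hbig
    have h2 : (2 : ℝ) ^ (33 * ν) = 2 ^ (32 * ν) * 2 ^ ν := by
      rw [← pow_add]
      congr 1
      ring
    have h3 : (2 : ℝ) ≤ 2 ^ ν := le_self_pow₀ (by norm_num) (by omega)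
    rw [h2]
    calc 2 ^ (32 * ν) * S ^ 3 * G ^ (25 * ν) * 2
        ≤ 2 ^ (32 * ν) * S ^ 3 * G ^ (25 * ν) * 2 ^ ν :=
          mul_le_mul_of_nonneg_left h3 (by positivity)
      _ = _ := by ring
  have h4 : 2 ^ (32 * ν) * S ^ 3 * G ^ (25 * ν) < 2 ^ (3 * ν * ϱ) := by
    have h5 : 0 < 2 ^ (32 * ν) * S ^ 3 * G ^ (25 * ν) := by positivity
    linarith
  calc (2 : ℝ) ^ (29 * (w * ϱ)) * (2 ^ (32 * ν) * S ^ 3 * G ^ (25 * ν)) ^ x
      < 2 ^ (29 * (w * ϱ)) * (2 ^ (3 * ν * ϱ)) ^ x :=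
        mul_lt_mul_of_pos_left (pow_lt_pow_left₀ h4 (by positivity) (by omega)) (by positivity)
    _ = 2 ^ (32 * (w * ϱ)) := by
        rw [← pow_mul, ← pow_add]
        congr 1
        rw [hw]
        ring
    _ = 256 ^ (ν * (2 * σ * ϱ * (2 * σ * ϱ))) := by
        rw [show (256 : ℝ) = 2 ^ 8 by norm_num, ← pow_mul]
        congr 1
        rw [hw, hx]
        ring

section core

variable {ι : Type*} [Fintype ι] {R : Type*} [CommRing R] {Φ : ι → (R →+* ℂ)}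
    {β β' D e : R} {l m σ ν : ℕ} {h ω E M : ι → ℝ} {G : ℝ}

/-- the estimate at every embedding -/
theorem SLoc.bound (H : SLoc Φ β β' D l m σ ν h ω E M G) (hν : 1 ≤ ν) {ϱ n mr ms : ℕ}
    {r s : Fin (2 * (2 * σ * ϱ)) → ℕ} (hz : Function.Injective fun j => r j + n * s j)
    (hr : Low r mr) (hs : Low s ms) (hϱ : 4 * ν * ϱ ≤ n) {S c : ℝ} (hS : 1 ≤ S)
    (hc : ∀ τ, (cc (fun j => r j + n * s j) τ : ℝ) ≤ c) {u v w : R} (hv0 : v ≠ 0)
    (hβ'0 : β' ≠ 0)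
    (hu : ∀ j, ‖Φ j u‖ ≤ S * h j ^ n) (hv : ∀ j, ‖Φ j v‖ ≤ S * h j ^ n)
    (hw : ∀ j, ‖Φ j w‖ ≤ S * ω j ^ n) (heq : β' ^ n * u = β ^ n * v - D ^ (l * n) * w) (j : ι) :
    ‖Φ j (DD (fun j => r j + n * s j) r s mr ms β β' u v)‖ *
        E j ^ (2 * σ * ϱ * (2 * σ * ϱ)) ≤
      (2 * (2 * σ * ϱ)).factorial * (c * 2 ^ (∑ j, r j - 2 * mr) *
        (2 ^ (n + 1) * (S * h j ^ n)) ^ (∑ j, s j - 2 * ms)) * M j ^ (∑ j, r j - 2 * mr) := by
  have hE := H.E1 j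
  have hM := H.M1 j
  have hh := H.h1 j
  have hω := H.ω1 j
  have hV : 0 ≤ S * h j ^ n := by positivity
  have hc0 : 0 ≤ c := (Nat.cast_nonneg _).trans (hc 1)
  rw [map_DD]
  rcases H.close j with h1 | ⟨h1, h2⟩
  · rw [h1, one_pow, mul_one]
    have h3 := DD_norm hr hs (H.βM j) (H.β'M j) (hu j) (hv j) hc
    refine h3.trans ?_
    rw [mul_assoc ((2 * (2 * σ * ϱ)).factorial : ℝ)]
    apply mul_le_mul_of_nonneg_left _ (Nat.cast_nonneg _)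
    have h4 : (S * h j ^ n) ^ (∑ j, s j - 2 * ms) ≤
        (2 ^ (n + 1) * (S * h j ^ n)) ^ (∑ j, s j - 2 * ms) :=
      pow_le_pow_left₀ hV (le_mul_of_one_le_left hV (one_le_pow₀ (by norm_num))) _
    have h5 : (1 : ℝ) ≤ 2 ^ (∑ j, r j - 2 * mr) := one_le_pow₀ (by norm_num)
    calc c * M j ^ (∑ j, r j - 2 * mr) * (S * h j ^ n) ^ (∑ j, s j - 2 * ms)
        ≤ c * M j ^ (∑ j, r j - 2 * mr) *
          (2 ^ (n + 1) * (S * h j ^ n)) ^ (∑ j, s j - 2 * ms) :=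
          mul_le_mul_of_nonneg_left h4 (by positivity)
      _ ≤ 2 ^ (∑ j, r j - 2 * mr) * (c * M j ^ (∑ j, r j - 2 * mr) *
          (2 ^ (n + 1) * (S * h j ^ n)) ^ (∑ j, s j - 2 * ms)) :=
          le_mul_of_one_le_left (by positivity) h5
      _ = _ := by ring
  · have hb' : Φ j β' ≠ 0 := fun h => hβ'0 ((map_eq_zero_iff _ (H.inj j)).1 h)
    have hvv : Φ j v ≠ 0 := fun h => hv0 ((map_eq_zero_iff _ (H.inj j)).1 h)
    have h3 : Φ j β' ^ n * Φ j u = Φ j β ^ n * Φ j v - Φ j (D ^ (l * n) * w) := by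
      rw [← map_pow, ← map_pow, ← map_mul, ← map_mul, heq, map_sub]
    have h4 : ‖Φ j (D ^ (l * n) * w)‖ * E j ^ (2 * (2 * σ * ϱ)) ≤
        ‖Φ j β'‖ ^ n * (2 ^ n * (S * h j ^ n)) := by
      rw [map_mul, map_pow, norm_mul, norm_pow]
      set q := ω j * ‖Φ j D‖ ^ l with hq
      have hq0 : 0 ≤ q := by positivity
      have a0 : q ≤ 2 * ‖Φ j β'‖ := by
        refine le_of_pow_le_pow_left₀ (n := ν) (by omega) (by positivity) (le_trans ?_ h2)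
        exact le_mul_of_one_le_left (by positivity) (one_le_pow₀ hE)
      have a2 : 1 ≤ h j ^ n := one_le_pow₀ hh
      obtain ⟨n', hn'⟩ : ∃ n', n = 4 * ν * ϱ + n' := ⟨n - 4 * ν * ϱ, by omega⟩
      have a3 : q ^ n * E j ^ (2 * (2 * σ * ϱ)) ≤ (2 * ‖Φ j β'‖) ^ n := by
        clear_value q
        calc q ^ n * E j ^ (2 * (2 * σ * ϱ))
            = (E j ^ σ * q ^ ν) ^ (4 * ϱ) * q ^ n' := by
              have b1 : 2 * (2 * σ * ϱ) = σ * (4 * ϱ) := by ring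
              have b2 : 4 * ν * ϱ = ν * (4 * ϱ) := by ring
              rw [hn', pow_add, mul_pow, b1, b2, pow_mul q, pow_mul (E j)]
              ring
          _ ≤ ((2 * ‖Φ j β'‖) ^ ν) ^ (4 * ϱ) * (2 * ‖Φ j β'‖) ^ n' :=
              mul_le_mul (pow_le_pow_left₀ (by positivity) h2 _)
                (pow_le_pow_left₀ hq0 a0 _) (by positivity) (by positivity)
          _ = (2 * ‖Φ j β'‖) ^ n := by
              rw [hn', pow_add, ← pow_mul]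
              congr 2
              ring
      calc ‖Φ j D‖ ^ (l * n) * ‖Φ j w‖ * E j ^ (2 * (2 * σ * ϱ))
          ≤ ‖Φ j D‖ ^ (l * n) * (S * ω j ^ n) * E j ^ (2 * (2 * σ * ϱ)) :=
            mul_le_mul_of_nonneg_right (mul_le_mul_of_nonneg_left (hw j) (by positivity))
              (by positivity)
        _ = S * (q ^ n * E j ^ (2 * (2 * σ * ϱ))) := by
            rw [hq, mul_pow, ← pow_mul]
            ring
        _ ≤ S * (2 * ‖Φ j β'‖) ^ n := mul_le_mul_of_nonneg_left a3 (by positivity)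
        _ ≤ S * (2 * ‖Φ j β'‖) ^ n * h j ^ n := le_mul_of_one_le_right (by positivity) a2
        _ = _ := by rw [mul_pow]; ring
    have h5 := close_bound hz (fun _ => rfl) hr hs hb' hvv hE h1 h3 h4 (hv j) hc
    refine h5.trans ?_
    apply mul_le_mul_of_nonneg_left _ (by positivity)
    exact pow_le_pow_left₀ (norm_nonneg _) (H.β'M j) _

/-- **The main inequality: two nonzero parts are impossible.** -/
theorem SLoc.no_two [IsDomain R] [CharZero R] [Nonempty ι]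
    (H : SLoc Φ β β' D l m σ ν h ω E M G) (hσ : 1 ≤ σ) (hν : 1 ≤ ν) (hm : 1 ≤ m)
    (hml : m * σ ≤ l * ν)
    (hdiff : β' - β = D ^ m * e) (hne : β ≠ β') (hco : IsCoprime D β') {S : ℝ} (hS : 1 ≤ S)
    {n : ℕ} {u v w : R} (hu : ∀ j, ‖Φ j u‖ ≤ S * h j ^ n) (hv : ∀ j, ‖Φ j v‖ ≤ S * h j ^ n)
    (hw : ∀ j, ‖Φ j w‖ ≤ S * ω j ^ n) (heq : β' ^ n * u = β ^ n * v - D ^ (l * n) * w)
    (hbig : 2 ^ (116 * ν) * S ^ 4 * G ^ (34 * ν) ≤ 2 ^ n) (hβ0 : β ≠ 0) (hβ'0 : β' ≠ 0)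
    (hu0 : u ≠ 0) (hv0 : v ≠ 0) : False := by
  classical
  have hG1 : 1 ≤ G := by
    obtain ⟨j⟩ := ‹Nonempty ι›
    exact (H.h1 j).trans (H.hG j)
  -- the parameter
  set ϱ := n / (4 * ν) with hϱdef
  have hϱ1 : 4 * ν * ϱ ≤ n := Nat.mul_div_le n (4 * ν)
  have hϱ2 : n + 1 ≤ 4 * ν * (ϱ + 1) := Nat.lt_mul_div_succ n (by omega)
  have hn116 : 116 * ν ≤ n := by
    have h2 : (2 : ℝ) ^ (116 * ν) ≤ 2 ^ n := by
      refine le_trans ?_ hbig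
      have h3 : 1 ≤ S ^ 4 * G ^ (34 * ν) :=
        one_le_mul_of_one_le_of_one_le (one_le_pow₀ hS) (one_le_pow₀ hG1)
      rw [mul_assoc]
      exact le_mul_of_one_le_right (by positivity) h3
    exact (pow_le_pow_iff_right₀ (by norm_num : (1 : ℝ) < 2)).1 h2
  have hϱ28 : 28 ≤ ϱ := by
    by_contra hcon
    have h1 : 4 * ν * (ϱ + 1) ≤ 4 * ν * 28 := Nat.mul_le_mul_left _ (by omega)
    omega
  have hbig' : 2 ^ (33 * ν) * S ^ 3 * G ^ (25 * ν) ≤ 2 ^ (3 * ν * ϱ) := by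
    refine le_of_pow_le_pow_left₀ (n := 4) (by norm_num) (by positivity) ?_
    have h1 : (2 : ℝ) ^ (3 * n) ≤ (2 ^ (3 * ν * ϱ)) ^ 4 * 2 ^ (12 * ν) := by
      rw [← pow_mul, ← pow_add]
      apply pow_le_pow_right₀ (by norm_num)
      have e1 : 3 * (4 * ν * (ϱ + 1)) = 3 * ν * ϱ * 4 + 12 * ν := by ring
      omega
    have h2 : (2 ^ (116 * ν) * S ^ 4 * G ^ (34 * ν)) ^ 3 ≤ 2 ^ (3 * n) := by
      rw [mul_comm 3 n, pow_mul 2 n 3]
      exact pow_le_pow_left₀ (by positivity) hbig 3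
    have h3 : (2 ^ (33 * ν) * S ^ 3 * G ^ (25 * ν)) ^ 4 * 2 ^ (12 * ν) ≤
        (2 ^ (116 * ν) * S ^ 4 * G ^ (34 * ν)) ^ 3 := by
      have e1 : (2 ^ (33 * ν) * S ^ 3 * G ^ (25 * ν)) ^ 4 * 2 ^ (12 * ν) =
          2 ^ (144 * ν) * S ^ 12 * G ^ (100 * ν) := by
        rw [mul_pow, mul_pow, ← pow_mul, ← pow_mul, ← pow_mul]
        have e2 : 144 * ν = 33 * ν * 4 + 12 * ν := by ring
        have e3 : 100 * ν = 25 * ν * 4 := by ring
        rw [e2, e3, pow_add]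
        ring
      have e2 : (2 ^ (116 * ν) * S ^ 4 * G ^ (34 * ν)) ^ 3 =
          2 ^ (348 * ν) * S ^ 12 * G ^ (102 * ν) := by
        rw [mul_pow, mul_pow, ← pow_mul, ← pow_mul, ← pow_mul]
        have e3 : 116 * ν * 3 = 348 * ν := by ring
        have e4 : 34 * ν * 3 = 102 * ν := by ring
        rw [e3, e4]
      rw [e1, e2]
      apply mul_le_mul _ (pow_le_pow_right₀ hG1 (by omega)) (by positivity) (by positivity)
      exact mul_le_mul_of_nonneg_right (pow_le_pow_right₀ (by norm_num) (by omega))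
        (by positivity)
    have h4 : (0 : ℝ) < 2 ^ (12 * ν) := by positivity
    exact le_of_mul_le_mul_right (h3.trans (h2.trans h1)) h4
  -- the rows
  set ιF := algebraMap R (FractionRing R) with hιF
  have hinjF : Function.Injective ιF := IsFractionRing.injective R (FractionRing R)
  have : CharZero (FractionRing R) := charZero_of_injective_algebraMap hinjF
  have hF : ∀ x : R, x ≠ 0 → ιF x ≠ 0 := fun x hx h => hx (hinjF (by rw [h, map_zero]))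
  have hK : 1 ≤ 2 * σ * ϱ := Nat.one_le_iff_ne_zero.2 (by positivity)
  obtain ⟨r, s, hr, hs, hdet⟩ := exists_rows (b := ιF β) (b' := ιF β') (u := ιF u) (v := ιF v)
    (hF _ hβ0) (hF _ hβ'0) (hF _ hu0) (hF _ hv0) (fun h => hne (hinjF h)) (n := n)
    (R := 2 * ϱ) (S := 2 * σ) (K := 2 * σ * ϱ) (by
      have : ϱ ≤ ν * ϱ := Nat.le_mul_of_pos_left _ hν
      have e1 : 4 * ν * ϱ = 4 * (ν * ϱ) := by ring
      omega) (by omega) hK (by
      have : 2 * ϱ * (2 * σ) = 2 * (2 * σ * ϱ) := by ring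
      omega)
  have hinj : Function.Injective fun j => (r j, s j) := by
    intro a b hab
    by_contra hne'
    apply hdet
    apply Matrix.det_zero_of_row_eq hne'
    simp only [Prod.mk.injEq] at hab
    funext c
    simp only [MM, hab.1, hab.2]
  have hz : Function.Injective fun j => r j + n * s j := by
    intro a b hab
    apply hinj
    obtain ⟨h1, h2⟩ := pt_inj (n := n) (R := 2 * ϱ + 1) (by
      have : ϱ ≤ ν * ϱ := Nat.le_mul_of_pos_left _ hν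
      have e1 : 4 * ν * ϱ = 4 * (ν * ϱ) := by ring
      omega) (hr a) (hr b) hab
    simp only [Prod.mk.injEq]
    exact ⟨h1, h2⟩
  obtain ⟨mr, ms, hmr, hms, hP, hQ⟩ := lows hσ (by omega) hinj hr hs
  set P := ∑ j, r j - 2 * mr with hPdef
  set Q := ∑ j, s j - 2 * ms with hQdef
  set Δ := DD (fun j => r j + n * s j) r s mr ms β β' u v with hΔ
  have hΔ0 : Δ ≠ 0 := by
    intro h0
    apply hdet
    rw [det_MM hmr hms]
    have h1 := map_DD ιF (fun j => r j + n * s j) r s mr ms β β' u v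
    rw [← h1, ← hΔ, h0, map_zero, mul_zero]
  -- divisibility
  set KK := 2 * σ * ϱ * (2 * σ * ϱ) with hKK
  have hD0 : D ≠ 0 := by
    rintro rfl
    rw [zero_pow (by omega), zero_mul, sub_eq_zero] at hdiff
    exact hne hdiff.symm
  have hdvd : D ^ (m * KK) ∣ Δ := by
    have hle : m * (2 * (2 * σ * ϱ)) ≤ l * n := by
      calc m * (2 * (2 * σ * ϱ)) = m * σ * (4 * ϱ) := by ring
        _ ≤ l * ν * (4 * ϱ) := Nat.mul_le_mul_right _ hml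
        _ = l * (4 * ν * ϱ) := by ring
        _ ≤ l * n := Nat.mul_le_mul_left _ hϱ1
    refine dvd_DD (ρ := D ^ (l * n - m * (2 * (2 * σ * ϱ))) * w) hz (fun _ => rfl) hmr hms hβ'0 hv0
      hdiff hco ?_
    rw [heq]
    have h1 : D ^ (l * n) = D ^ (l * n - m * (2 * (2 * σ * ϱ))) * D ^ (m * (2 * (2 * σ * ϱ))) := by
      rw [← pow_add, Nat.sub_add_cancel hle]
    rw [h1]
    ring
  have hlow : ∏ j, ‖Φ j D‖ ^ (m * KK) ≤ ∏ j, ‖Φ j Δ‖ := by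
    obtain ⟨Δ', hΔ'⟩ := hdvd
    have h1 : Δ' ≠ 0 := by
      rintro rfl
      rw [mul_zero] at hΔ'
      exact hΔ0 hΔ'
    have h2 : ∏ j, ‖Φ j Δ‖ = (∏ j, ‖Φ j D‖ ^ (m * KK)) * ∏ j, ‖Φ j Δ'‖ := by
      rw [← prod_mul_distrib]
      refine prod_congr rfl fun j _ => ?_
      rw [hΔ', map_mul, map_pow, norm_mul, norm_pow]
    rw [h2]
    exact le_mul_of_one_le_right (prod_nonneg fun _ _ => by positivity) (H.norm Δ' h1)
  -- the estimates at the embeddings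
  set c : ℝ := 2 ^ (18 * (ν * (σ ^ 2 * ϱ ^ 2)) + 7 * (ν * (σ ^ 2 * ϱ))) with hc
  set A : ℝ := (2 * (2 * σ * ϱ)).factorial * (c * 2 ^ P * (2 ^ (n + 1) * S) ^ Q) *
      G ^ (4 * σ * ϱ + 21 * (ν * (σ ^ 2 * ϱ))) with hA
  have hA0 : 0 ≤ A := by positivity
  have hloc : ∀ j, ‖Φ j Δ‖ * E j ^ KK ≤
      A * (h j ^ (8 * (ν * (σ ^ 2 * ϱ ^ 2))) * M j ^ (2 * σ * ϱ ^ 2)) := by
    intro j
    have h1 := H.bound hν hz hmr hms hϱ1 hS
      (fun τ => cc_le_two hσ hν (by omega : n ≤ 4 * ν * (ϱ + 1)) hr hs τ) hv0 hβ'0 hu hv hw heq j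
    refine h1.trans ?_
    have hh := H.h1 j
    have hM := H.M1 j
    have h2 : M j ^ P ≤ M j ^ (2 * σ * ϱ ^ 2) * G ^ (4 * σ * ϱ) := by
      calc M j ^ P ≤ M j ^ (2 * σ * ϱ ^ 2 + 4 * σ * ϱ) := pow_le_pow_right₀ hM hP
        _ = M j ^ (2 * σ * ϱ ^ 2) * M j ^ (4 * σ * ϱ) := pow_add _ _ _
        _ ≤ _ := mul_le_mul_of_nonneg_left
            (pow_le_pow_left₀ (by positivity) (H.MG j) _) (by positivity)
    have h3 : (h j ^ n) ^ Q ≤ h j ^ (8 * (ν * (σ ^ 2 * ϱ ^ 2))) *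
        G ^ (21 * (ν * (σ ^ 2 * ϱ))) := by
      rw [← pow_mul]
      have h4 : n * Q ≤ 8 * (ν * (σ ^ 2 * ϱ ^ 2)) + 21 * (ν * (σ ^ 2 * ϱ)) := by
        have h5 : n * Q ≤ 4 * ν * (ϱ + 1) * (2 * σ ^ 2 * ϱ + 3 * σ ^ 2) :=
          Nat.mul_le_mul (by omega) hQ
        refine h5.trans ?_
        have h6 : 28 * (ν * σ ^ 2) ≤ ν * (σ ^ 2 * ϱ) := by
          calc 28 * (ν * σ ^ 2) = ν * (σ ^ 2 * 28) := by ring
            _ ≤ ν * (σ ^ 2 * ϱ) := Nat.mul_le_mul_left _ (Nat.mul_le_mul_left _ hϱ28)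
        have e1 : 4 * ν * (ϱ + 1) * (2 * σ ^ 2 * ϱ + 3 * σ ^ 2) =
            8 * (ν * (σ ^ 2 * ϱ ^ 2)) + 20 * (ν * (σ ^ 2 * ϱ)) + 12 * (ν * σ ^ 2) := by ring
        omega
      calc h j ^ (n * Q) ≤ h j ^ (8 * (ν * (σ ^ 2 * ϱ ^ 2)) + 21 * (ν * (σ ^ 2 * ϱ))) :=
            pow_le_pow_right₀ hh h4
        _ = h j ^ (8 * (ν * (σ ^ 2 * ϱ ^ 2))) * h j ^ (21 * (ν * (σ ^ 2 * ϱ))) := pow_add _ _ _
        _ ≤ _ := mul_le_mul_of_nonneg_left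
            (pow_le_pow_left₀ (by positivity) (H.hG j) _) (by positivity)
    calc ((2 * (2 * σ * ϱ)).factorial : ℝ) * (c * 2 ^ P * (2 ^ (n + 1) * (S * h j ^ n)) ^ Q) *
          M j ^ P
        = ((2 * (2 * σ * ϱ)).factorial : ℝ) * (c * 2 ^ P * (2 ^ (n + 1) * S) ^ Q) *
          ((h j ^ n) ^ Q * M j ^ P) := by
          rw [← mul_assoc (2 ^ (n + 1) : ℝ), mul_pow _ (h j ^ n)]
          ring
      _ ≤ ((2 * (2 * σ * ϱ)).factorial : ℝ) * (c * 2 ^ P * (2 ^ (n + 1) * S) ^ Q) *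
          ((h j ^ (8 * (ν * (σ ^ 2 * ϱ ^ 2))) * G ^ (21 * (ν * (σ ^ 2 * ϱ)))) *
            (M j ^ (2 * σ * ϱ ^ 2) * G ^ (4 * σ * ϱ))) := by
          apply mul_le_mul_of_nonneg_left _ (by positivity)
          exact mul_le_mul h3 h2 (by positivity) (by positivity)
      _ = _ := by
          rw [hA, pow_add G]
          ring
  have hprod : (∏ j, ‖Φ j D‖ ^ (m * KK)) * ∏ j, E j ^ KK ≤
      A ^ Fintype.card ι *
        ∏ j, (h j ^ (8 * (ν * (σ ^ 2 * ϱ ^ 2))) * M j ^ (2 * σ * ϱ ^ 2)) := by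
    calc (∏ j, ‖Φ j D‖ ^ (m * KK)) * ∏ j, E j ^ KK
        ≤ (∏ j, ‖Φ j Δ‖) * ∏ j, E j ^ KK := by
          apply mul_le_mul_of_nonneg_right hlow
          exact prod_nonneg fun j _ => by have := H.E1 j; positivity
      _ = ∏ j, (‖Φ j Δ‖ * E j ^ KK) := prod_mul_distrib.symm
      _ ≤ ∏ j, (A * (h j ^ (8 * (ν * (σ ^ 2 * ϱ ^ 2))) * M j ^ (2 * σ * ϱ ^ 2))) :=
          prod_le_prod (fun j _ => by have := H.E1 j; positivity) fun j _ => hloc j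
      _ = _ := by rw [prod_mul_distrib, prod_const, card_univ]
  have hlarge : (256 ^ (ν * KK)) ^ Fintype.card ι *
      ∏ j, (h j ^ (8 * (ν * (σ ^ 2 * ϱ ^ 2))) * M j ^ (2 * σ * ϱ ^ 2)) ≤
      (∏ j, ‖Φ j D‖ ^ (m * KK)) * ∏ j, E j ^ KK := by
    have h1 := pow_le_pow_left₀ (prod_nonneg fun j _ => by
      have := H.h1 j; have := H.M1 j; positivity) H.large (2 * σ * ϱ ^ 2)
    rw [← prod_pow, ← prod_pow] at h1
    calc (256 ^ (ν * KK)) ^ Fintype.card ι *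
        ∏ j, (h j ^ (8 * (ν * (σ ^ 2 * ϱ ^ 2))) * M j ^ (2 * σ * ϱ ^ 2))
        = ∏ j, ((256 * h j ^ 2) ^ (2 * σ * ν) * M j) ^ (2 * σ * ϱ ^ 2) := by
          rw [← card_univ, ← prod_const, ← prod_mul_distrib]
          refine prod_congr rfl fun j _ => ?_
          have e1 : ν * KK = 2 * σ * ν * (2 * σ * ϱ ^ 2) := by rw [hKK]; ring
          have e2 : 8 * (ν * (σ ^ 2 * ϱ ^ 2)) = 2 * (2 * σ * ν * (2 * σ * ϱ ^ 2)) := by ring
          rw [mul_pow ((256 * h j ^ 2) ^ (2 * σ * ν)), ← pow_mul, mul_pow, e1, e2,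
            pow_mul (h j) 2]
          ring
      _ ≤ ∏ j, (‖Φ j D‖ ^ (2 * σ * m) * E j ^ (2 * σ)) ^ (2 * σ * ϱ ^ 2) := h1
      _ = _ := by
          rw [← prod_mul_distrib]
          refine prod_congr rfl fun j _ => ?_
          have e1 : KK = 2 * σ * (2 * σ * ϱ ^ 2) := by rw [hKK]; ring
          rw [mul_pow, ← pow_mul, ← pow_mul, e1]
          congr 2
          ring
  have hpos : 0 < ∏ j, (h j ^ (8 * (ν * (σ ^ 2 * ϱ ^ 2))) * M j ^ (2 * σ * ϱ ^ 2)) :=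
    prod_pos fun j _ => by
      have := H.h1 j
      have := H.M1 j
      positivity
  have h1 : ((256 : ℝ) ^ (ν * KK)) ^ Fintype.card ι ≤ A ^ Fintype.card ι :=
    le_of_mul_le_mul_right (hlarge.trans hprod) hpos
  have h2 : (256 : ℝ) ^ (ν * KK) ≤ A := le_of_pow_le_pow_left₀ Fintype.card_ne_zero hA0 h1
  have h3 := numeric (σ := σ) (ϱ := ϱ) (ν := ν) (n := n) (P := P) (Q := Q) (S := S) (G := G)
    (c := c) hσ hν hϱ28 hϱ2 hP hQ hS hG1 (by positivity) le_rfl hbig'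
  exact absurd h2 (not_le.2 h3)

/-- a single small part vanishes -/
theorem single_zero {β w x : R} [IsDomain R] [Nonempty ι] (hnorm : ∀ x : R, x ≠ 0 → 1 ≤ ∏ j, ‖Φ j x‖)
    {n l : ℕ} {D : R} (hD0 : D ≠ 0) (hco : IsCoprime D β) {S : ℝ} (hS : 0 ≤ S) (hω : ∀ j, 1 ≤ ω j)
    (hw : ∀ j, ‖Φ j w‖ ≤ S * ω j ^ n) (hsmall : ∏ j, (2 * ω j) ≤ ∏ j, ‖Φ j β‖)
    (heq : β ^ n * x + D ^ (l * n) * w = 0) (hbig : S < 2 ^ n) : x = 0 := by
  by_contra hx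
  have h1 : D ^ (l * n) ∣ x := by
    apply (hco.pow (m := l * n) (n := n)).dvd_of_dvd_mul_left
    exact ⟨-w, by linear_combination heq⟩
  obtain ⟨y, rfl⟩ := h1
  have hy : y ≠ 0 := by
    rintro rfl
    rw [mul_zero] at hx
    exact hx rfl
  have h2 : β ^ n * y = -w := by
    apply mul_left_cancel₀ (pow_ne_zero (l * n) hD0)
    linear_combination heq
  have h3 : (∏ j, ‖Φ j β‖) ^ n ≤ ∏ j, ‖Φ j w‖ := by
    have h4 : ∏ j, ‖Φ j w‖ = (∏ j, ‖Φ j β‖) ^ n * ∏ j, ‖Φ j y‖ := by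
      rw [← prod_pow, ← prod_mul_distrib]
      refine prod_congr rfl fun j _ => ?_
      have h5 : w = -(β ^ n * y) := by rw [h2, neg_neg]
      rw [h5, map_neg, norm_neg, map_mul, map_pow, norm_mul, norm_pow]
    rw [h4]
    exact le_mul_of_one_le_right (by positivity) (hnorm y hy)
  have h4 : ∏ j, ‖Φ j w‖ ≤ S ^ Fintype.card ι * (∏ j, ω j) ^ n := by
    calc ∏ j, ‖Φ j w‖ ≤ ∏ j, (S * ω j ^ n) := prod_le_prod (fun _ _ => norm_nonneg _) fun j _ => hw j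
      _ = _ := by rw [prod_mul_distrib, prod_const, card_univ, prod_pow]
  have h5 : ((2 : ℝ) ^ n) ^ Fintype.card ι * (∏ j, ω j) ^ n ≤
      S ^ Fintype.card ι * (∏ j, ω j) ^ n := by
    calc ((2 : ℝ) ^ n) ^ Fintype.card ι * (∏ j, ω j) ^ n = (∏ j, (2 * ω j)) ^ n := by
          rw [prod_mul_distrib, prod_const, card_univ, mul_pow, ← pow_mul, ← pow_mul, mul_comm n]
      _ ≤ (∏ j, ‖Φ j β‖) ^ n := pow_le_pow_left₀ (prod_nonneg fun j _ => by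
          have := hω j; positivity) hsmall n
      _ ≤ _ := h3.trans h4
  have hp : 0 < (∏ j, ω j) ^ n := pow_pos (prod_pos fun j _ => by linarith [hω j]) n
  have h6 := le_of_mul_le_mul_right h5 hp
  have h7 : (2 : ℝ) ^ n ≤ S := le_of_pow_le_pow_left₀ Fintype.card_ne_zero hS h6
  exact absurd h7 (not_le.2 hbig)

/-- **The main theorem at one index.** -/
theorem SLoc.core [IsDomain R] [CharZero R] [Nonempty ι]
    (H : SLoc Φ β β' D l m σ ν h ω E M G) (hσ : 1 ≤ σ) (hν : 1 ≤ ν) (hm : 1 ≤ m)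
    (hml : m * σ ≤ l * ν)
    (hdiff : β' - β = D ^ m * e) (hne : β ≠ β') (hco : IsCoprime D β') {S : ℝ} (hS : 1 ≤ S)
    {n : ℕ} {s t w : R} (hs : ∀ j, ‖Φ j s‖ ≤ S * h j ^ n) (ht : ∀ j, ‖Φ j t‖ ≤ S * h j ^ n)
    (hw : ∀ j, ‖Φ j w‖ ≤ S * ω j ^ n) (heq : β ^ n * s + β' ^ n * t + D ^ (l * n) * w = 0)
    (hbig : 2 ^ (116 * ν) * S ^ 4 * G ^ (34 * ν) ≤ 2 ^ n) : s = 0 ∧ t = 0 ∧ w = 0 := by
  have hG1 : 1 ≤ G := by
    obtain ⟨j⟩ := ‹Nonempty ι›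
    exact (H.h1 j).trans (H.hG j)
  have hprod : 0 < ∏ j, (2 * ω j) := prod_pos fun j _ => by linarith [H.ω1 j]
  have hz : ∀ x : R, (∏ j, (2 * ω j) ≤ ∏ j, ‖Φ j x‖) → x ≠ 0 := by
    rintro x hx rfl
    obtain ⟨j⟩ := ‹Nonempty ι›
    have h1 : ∏ j, ‖Φ j (0 : R)‖ = 0 := prod_eq_zero (mem_univ j) (by rw [map_zero, norm_zero])
    rw [h1] at hx
    linarith
  have hβ0 := hz β H.smallβ
  have hβ'0 := hz β' H.smallβ'
  have hD0 : D ≠ 0 := by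
    rintro rfl
    rw [zero_pow (by omega), zero_mul, sub_eq_zero] at hdiff
    exact hne hdiff.symm
  have hco' : IsCoprime D β := by
    have h1 : β = β' + D * (-(D ^ (m - 1) * e)) := by
      have h2 : D ^ m = D * D ^ (m - 1) := by rw [← pow_succ']; congr 1; omega
      rw [h2] at hdiff
      linear_combination -hdiff
    rw [h1]
    exact hco.add_mul_left_right _
  have hSn : S < 2 ^ n := by
    refine lt_of_lt_of_le ?_ hbig
    have h1 : 1 ≤ S ^ 3 * G ^ (34 * ν) :=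
      one_le_mul_of_one_le_of_one_le (one_le_pow₀ hS) (one_le_pow₀ hG1)
    have h2 : 2 ^ (116 * ν) * S ^ 4 * G ^ (34 * ν) =
        2 ^ (116 * ν) * S * (S ^ 3 * G ^ (34 * ν)) := by ring
    have h3 : 2 ^ (116 * ν) * S ≤ 2 ^ (116 * ν) * S * (S ^ 3 * G ^ (34 * ν)) :=
      le_mul_of_one_le_right (by positivity) h1
    have h4 : (2 : ℝ) ≤ 2 ^ (116 * ν) := le_self_pow₀ (by norm_num) (by omega)
    have h5 : 2 * S ≤ 2 ^ (116 * ν) * S := mul_le_mul_of_nonneg_right h4 (by linarith)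
    rw [h2]
    linarith
  have hS0 : 0 ≤ S := by linarith
  by_cases hs0 : s = 0
  · subst hs0
    rw [mul_zero, zero_add] at heq
    have ht0 := single_zero H.norm hD0 hco hS0 H.ω1 hw H.smallβ' heq hSn
    subst ht0
    rw [mul_zero, zero_add] at heq
    exact ⟨rfl, rfl, (mul_eq_zero.1 heq).resolve_left (pow_ne_zero _ hD0)⟩
  by_cases ht0 : t = 0
  · subst ht0
    rw [mul_zero, add_zero] at heq
    exact absurd (single_zero H.norm hD0 hco' hS0 H.ω1 hw H.smallβ heq hSn) hs0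
  exfalso
  refine H.no_two hσ hν hm hml hdiff hne hco hS (u := t) (v := -s) (w := w) ht (fun j => ?_) hw ?_
    hbig hβ0 hβ'0 ht0 (neg_ne_zero.2 hs0)
  · rw [map_neg, norm_neg]
    exact hs j
  · linear_combination heq

end core

end Pool.Agent.Work.MP_8d13b5_lc.Sc
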