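import Pool.Agent.Work.MP_8d13b5_lc.Sc.NF
import Pool.Agent.Work.MP_8d13b5_lc.Pd.Data

set_option autoImplicit false

/-! From the input data of an integer linear recurrence sequence to the zero bound. -/

namespace Pool.Agent.Work.MP_8d13b5_lc.Sc

open Polynomial Finset NumberField Pool.Agent.Work.MP_8d13b5_lc.US Pool.Agent.Work.MP_8d13b5_lc.Pd

/-- **The zero bound in terms of the data.** -/
theorem data_bound {K : Type*} [Field K] [NumberField K] {f g q : (𝓞 K)[X]} {c β β' D e : 𝓞 K}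
    {l m σ ν : ℕ} {a w E : (K →+* ℂ) → ℝ} (H : SFam K f g q β β' D e l m σ ν a w E) {A : ℕ}
    (hA : ∀ φ : K →+* ℂ, ‖φ c‖ ≤ 2 ^ A ∧ ‖φ β‖ ≤ 2 ^ A ∧ ‖φ β'‖ ≤ 2 ^ A ∧
      ‖φ (D ^ l : 𝓞 K)‖ ≤ 2 ^ A)
    {p : List ℤ × List ℤ} {u : ℕ → ℤ} (hu : IsSeq p u) {T j : ℕ} (hT : 1 ≤ T) (hj : j < T)
    (hdeg : f.natDegree + g.natDegree + q.natDegree ≤ p.1.length)
    (hroots : ∀ (φ : K →+* ℂ) (z : ℂ), (f.scaleRoots β * g.scaleRoots β' *
      q.scaleRoots (D ^ l)).eval₂ (res φ) z = 0 → ∃ x : ℂ, IsRt p.1 x ∧ z = φ c * x ^ T)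
    {s t r : ℕ → K} (hs : Sol (f.map (algebraMap (𝓞 K) K)) s)
    (ht : Sol (g.map (algebraMap (𝓞 K) K)) t) (hr : Sol (q.map (algebraMap (𝓞 K) K)) r)
    (hy : ∀ n, (c : K) ^ n * (u (j + T * n) : K) =
      (β : K) ^ n * s n + (β' : K) ^ n * t n + ((D : K) ^ l) ^ n * r n)
    {n : ℕ} (hn : 220 * ν * p.1.length ^ 3 * Module.finrank ℚ K * (A + T * lsize p) < n) {ρ : 𝓞 K}
    (hρ : ∀ φ : K →+* ℂ, ‖φ ρ‖ ≤ (2 * w φ) ^ n)
    (h0 : (c : K) ^ n * (u (j + T * n) : K) = ((D : K) ^ l) ^ n * ρ) :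
    s n = 0 ∧ t n = 0 ∧ r n = ρ := by
  obtain ⟨h1, h2, h3, h4, h5⟩ := hu
  set d := p.1.length with hd
  have hl1 : 1 ≤ lsize p := by unfold lsize; omega
  set L := d * (A + T * lsize p) with hL
  have hTl : 1 ≤ T * lsize p := Nat.one_le_iff_ne_zero.2 (by positivity)
  have hL1 : 1 ≤ L := Nat.one_le_iff_ne_zero.2 (by positivity)
  have hAL : A + T * lsize p ≤ L := Nat.le_mul_of_pos_left _ h2
  have hsz : (size p : ℝ) ≤ 2 ^ lsize p := by exact_mod_cast size_le p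
  refine H.zero (L := L) hL1 (fun φ => ?_) (fun φ z hz => ?_) hs ht hr
    (y := fun n => c ^ n * (u (j + T * n) : 𝓞 K)) (N := d) (by omega) (fun φ i hi => ?_)
    (fun i => ?_) ?_ hρ ?_
  · have hp : (2 : ℝ) ^ A ≤ 2 ^ L := pow_le_pow_right₀ (by norm_num) (by omega)
    exact ⟨(hA φ).2.1.trans hp, (hA φ).2.2.1.trans hp, (hA φ).2.2.2.trans hp⟩
  · obtain ⟨x, hx, rfl⟩ := hroots φ z hz
    rw [norm_mul, norm_pow]
    calc ‖φ c‖ * ‖x‖ ^ T ≤ 2 ^ A * (2 ^ lsize p) ^ T :=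
          mul_le_mul (hA φ).1 (pow_le_pow_left₀ (norm_nonneg _)
            ((root_bound h2 hx).trans hsz) T) (by positivity) (by positivity)
      _ = 2 ^ (A + T * lsize p) := by rw [← pow_mul, ← pow_add, mul_comm T]
      _ ≤ 2 ^ L := pow_le_pow_right₀ (by norm_num) hAL
  · show ‖φ ((c ^ i * (u (j + T * i) : 𝓞 K) : 𝓞 K) : K)‖ ≤ 2 ^ L
    have e1 : ((c ^ i * (u (j + T * i) : 𝓞 K) : 𝓞 K) : K) = (c : K) ^ i * (u (j + T * i) : K) := by
      push_cast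
      rfl
    rw [e1, map_mul, map_pow, map_intCast, norm_mul, norm_pow, Complex.norm_intCast]
    have h6 : |((u (j + T * i) : ℤ) : ℝ)| ≤ (2 ^ lsize p) ^ (T * d) := by
      have h7 := val_bound ⟨h1, h2, h3, h4, h5⟩ (j + T * i)
      have h8 : |((u (j + T * i) : ℤ) : ℝ)| = ((u (j + T * i)).natAbs : ℝ) := by
        rw [Nat.cast_natAbs, Int.cast_abs]
      rw [h8]
      have h9 : ((u (j + T * i)).natAbs : ℝ) ≤ (size p : ℝ) ^ (j + T * i + 1) := by
        exact_mod_cast h7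
      refine h9.trans ?_
      have hs1 : (1 : ℝ) ≤ size p := by exact_mod_cast size_pos h2
      refine (pow_le_pow_right₀ hs1 ?_).trans (pow_le_pow_left₀ (by positivity) hsz _)
      have : T * (i + 1) ≤ T * d := Nat.mul_le_mul_left T hi
      have h10 : T * (i + 1) = T * i + T := by ring
      omega
    calc ‖φ c‖ ^ i * |((u (j + T * i) : ℤ) : ℝ)| ≤ (2 ^ A) ^ d * (2 ^ lsize p) ^ (T * d) := by
          refine mul_le_mul ?_ h6 (abs_nonneg _) (by positivity)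
          exact (pow_le_pow_left₀ (norm_nonneg _) (hA φ).1 i).trans
            (pow_le_pow_right₀ (one_le_pow₀ (by norm_num)) (by omega))
      _ = 2 ^ L := by
          rw [← pow_mul, ← pow_mul, ← pow_add, hL]
          congr 1
          ring
  · rw [← hy i]
    push_cast
    rfl
  · refine lt_of_le_of_lt (le_of_eq ?_) hn
    rw [hL]
    ring
  · apply RingOfIntegers.coe_injective
    have e1 : algebraMap (𝓞 K) K (c ^ n * (u (j + T * n) : 𝓞 K)) =
        (c : K) ^ n * (u (j + T * n) : K) := by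
      push_cast
      rfl
    rw [e1, h0]
    push_cast
    rfl

end Pool.Agent.Work.MP_8d13b5_lc.Sc
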