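import Mathlib

set_option autoImplicit false

/-! The interpolation determinant: definition, homogeneity, size. -/

namespace Pool.Agent.Work.MP_8d13b5_lc.Sc

open Finset Polynomial

/-- columns `c < K` -/
def lo (K : ℕ) : Finset (Fin (2 * K)) := univ.filter fun c => c.val < K

/-- columns `K ≤ c` -/
def hi (K : ℕ) : Finset (Fin (2 * K)) := univ.filter fun c => ¬ c.val < K

/-- the degree of the binomial polynomial of the column `c` -/
def kk (K : ℕ) (c : Fin (2 * K)) : ℕ := if c.val < K then c.val else c.val - K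

theorem card_lo (K : ℕ) : (lo K).card = K := by
  unfold lo
  rw [Fin.card_filter_val_lt]
  omega

theorem card_hi (K : ℕ) : (hi K).card = K := by
  have h := Finset.card_filter_add_card_filter_not (s := (univ : Finset (Fin (2 * K))))
    (fun c => c.val < K)
  have h1 := card_lo K
  unfold lo at h1
  rw [h1, card_univ, Fintype.card_fin] at h
  unfold hi
  omega

theorem sum_kk (K : ℕ) : ∑ c, kk K c = K * (K - 1) := by
  have h1 : ∑ c : Fin (2 * K), kk K c = ∑ c ∈ range (2 * K), (if c < K then c else c - K) := by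
    rw [Finset.sum_range]
    rfl
  rw [h1, two_mul, sum_range_add]
  have h2 : ∑ c ∈ range K, (if c < K then c else c - K) = ∑ c ∈ range K, c :=
    sum_congr rfl fun c hc => by rw [if_pos (mem_range.1 hc)]
  have h3 : ∑ c ∈ range K, (if K + c < K then K + c else K + c - K) = ∑ c ∈ range K, c :=
    sum_congr rfl fun c hc => by rw [if_neg (by omega)]; omega
  rw [h2, h3, ← two_mul, mul_comm, sum_range_id_mul_two]

section defs

variable {A : Type*} [CommRing A]

/-- exponent sums of a term of the determinant -/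
def ex {K : ℕ} (J : Finset (Fin (2 * K))) (r : Fin (2 * K) → ℕ) (τ : Equiv.Perm (Fin (2 * K))) :
    ℕ := ∑ c ∈ J, r (τ c)

/-- the binomial coefficient of a term -/
def cc {K : ℕ} (z : Fin (2 * K) → ℕ) (τ : Equiv.Perm (Fin (2 * K))) : ℕ :=
  ∏ c, (z (τ c)).choose (kk K c)

/-- the reduced interpolation determinant -/
def DD {K : ℕ} (z r s : Fin (2 * K) → ℕ) (mr ms : ℕ) (b b' u v : A) : A :=
  ∑ τ : Equiv.Perm (Fin (2 * K)), Equiv.Perm.sign τ • ((cc z τ : A) *
    b ^ (ex (hi K) r τ - mr) * b' ^ (ex (lo K) r τ - mr) *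
    (u ^ (ex (hi K) s τ - ms) * v ^ (ex (lo K) s τ - ms)))

/-- the interpolation matrix -/
def MM {K : ℕ} (z r s : Fin (2 * K) → ℕ) (b b' u v : A) : Matrix (Fin (2 * K)) (Fin (2 * K)) A :=
  fun j c => ((z j).choose (kk K c) : A) *
    (if c.val < K then b' ^ r j * v ^ s j else b ^ r j * u ^ s j)

/-- every sum over `K` rows is at least `m` -/
def Low {K : ℕ} (r : Fin (2 * K) → ℕ) (m : ℕ) : Prop :=
  ∀ J : Finset (Fin (2 * K)), J.card = K → m ≤ ∑ j ∈ J, r j

theorem ex_eq {K : ℕ} (J : Finset (Fin (2 * K))) (r : Fin (2 * K) → ℕ)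
    (τ : Equiv.Perm (Fin (2 * K))) : ex J r τ = ∑ j ∈ J.map τ.toEmbedding, r j := by
  rw [sum_map]
  rfl

theorem Low.lo {K : ℕ} {r : Fin (2 * K) → ℕ} {m : ℕ} (h : Low r m)
    (τ : Equiv.Perm (Fin (2 * K))) : m ≤ ex (lo K) r τ := by
  rw [ex_eq]
  exact h _ (by rw [card_map, card_lo])

theorem Low.hi {K : ℕ} {r : Fin (2 * K) → ℕ} {m : ℕ} (h : Low r m)
    (τ : Equiv.Perm (Fin (2 * K))) : m ≤ ex (hi K) r τ := by
  rw [ex_eq]
  exact h _ (by rw [card_map, card_hi])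

theorem ex_add {K : ℕ} (r : Fin (2 * K) → ℕ) (τ : Equiv.Perm (Fin (2 * K))) :
    ex (Sc.lo K) r τ + ex (Sc.hi K) r τ = ∑ j, r j := by
  unfold ex Sc.lo Sc.hi
  rw [sum_filter_add_sum_filter_not univ (fun c : Fin (2 * K) => c.val < K)]
  exact Equiv.sum_comp τ r

theorem ex_sub_add {K : ℕ} {r : Fin (2 * K) → ℕ} {m : ℕ} (h : Low r m)
    (τ : Equiv.Perm (Fin (2 * K))) :
    (ex (Sc.hi K) r τ - m) + (ex (Sc.lo K) r τ - m) = ∑ j, r j - 2 * m := by
  have h1 := ex_add r τ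
  have h2 := h.lo τ
  have h3 := h.hi τ
  omega

/-- the determinant and the reduced determinant -/
theorem det_MM {K : ℕ} {z r s : Fin (2 * K) → ℕ} {mr ms : ℕ} (hr : Low r mr) (hs : Low s ms)
    (b b' u v : A) :
    (MM z r s b b' u v).det = (b * b') ^ mr * (u * v) ^ ms * DD z r s mr ms b b' u v := by
  rw [Matrix.det_apply, DD, mul_sum]
  refine sum_congr rfl fun τ _ => ?_
  rw [mul_smul_comm]
  congr 1
  unfold MM
  rw [prod_mul_distrib]
  have h1 : (∏ c : Fin (2 * K), ((z (τ c)).choose (kk K c) : A)) = (cc z τ : A) := by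
    unfold cc
    rw [Nat.cast_prod]
  have h2 : (∏ c : Fin (2 * K), (if c.val < K then b' ^ r (τ c) * v ^ s (τ c)
      else b ^ r (τ c) * u ^ s (τ c))) =
      (b' ^ ex (lo K) r τ * v ^ ex (lo K) s τ) * (b ^ ex (hi K) r τ * u ^ ex (hi K) s τ) := by
    rw [prod_ite, prod_mul_distrib, prod_mul_distrib, prod_pow_eq_pow_sum, prod_pow_eq_pow_sum,
      prod_pow_eq_pow_sum, prod_pow_eq_pow_sum]
    rfl
  rw [h1, h2]
  have e1 : b ^ ex (hi K) r τ = b ^ mr * b ^ (ex (hi K) r τ - mr) := by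
    rw [← pow_add, Nat.add_sub_cancel' (hr.hi τ)]
  have e2 : b' ^ ex (lo K) r τ = b' ^ mr * b' ^ (ex (lo K) r τ - mr) := by
    rw [← pow_add, Nat.add_sub_cancel' (hr.lo τ)]
  have e3 : u ^ ex (hi K) s τ = u ^ ms * u ^ (ex (hi K) s τ - ms) := by
    rw [← pow_add, Nat.add_sub_cancel' (hs.hi τ)]
  have e4 : v ^ ex (lo K) s τ = v ^ ms * v ^ (ex (lo K) s τ - ms) := by
    rw [← pow_add, Nat.add_sub_cancel' (hs.lo τ)]
  rw [e1, e2, e3, e4]
  ring

theorem DD_hom_left {K : ℕ} {z r s : Fin (2 * K) → ℕ} {mr ms : ℕ} (hr : Low r mr)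
    (b b' u v x : A) :
    DD z r s mr ms (x * b) (x * b') u v = x ^ (∑ j, r j - 2 * mr) * DD z r s mr ms b b' u v := by
  unfold DD
  rw [mul_sum]
  refine sum_congr rfl fun τ _ => ?_
  rw [mul_smul_comm]
  congr 1
  rw [← ex_sub_add hr τ, mul_pow, mul_pow, pow_add]
  ring

theorem DD_hom_right {K : ℕ} {z r s : Fin (2 * K) → ℕ} {mr ms : ℕ} (hs : Low s ms)
    (b b' u v x : A) :
    DD z r s mr ms b b' (x * u) (x * v) = x ^ (∑ j, s j - 2 * ms) * DD z r s mr ms b b' u v := by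
  unfold DD
  rw [mul_sum]
  refine sum_congr rfl fun τ _ => ?_
  rw [mul_smul_comm]
  congr 1
  rw [← ex_sub_add hs τ, mul_pow, mul_pow, pow_add]
  ring

theorem map_DD {B : Type*} [CommRing B] (φ : A →+* B) {K : ℕ} (z r s : Fin (2 * K) → ℕ)
    (mr ms : ℕ) (b b' u v : A) :
    φ (DD z r s mr ms b b' u v) = DD z r s mr ms (φ b) (φ b') (φ u) (φ v) := by
  unfold DD
  rw [map_sum]
  refine sum_congr rfl fun τ _ => ?_
  rw [Units.smul_def, Units.smul_def, map_zsmul, map_mul, map_mul, map_mul, map_mul, map_natCast,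
    map_pow, map_pow, map_pow, map_pow]

end defs

/-- the trivial estimate -/
theorem DD_norm {K : ℕ} {z r s : Fin (2 * K) → ℕ} {mr ms : ℕ} (hr : Low r mr) (hs : Low s ms)
    {b b' u v : ℂ} {M V c : ℝ} (hM : ‖b‖ ≤ M) (hM' : ‖b'‖ ≤ M)
    (hu : ‖u‖ ≤ V) (hv : ‖v‖ ≤ V) (hc : ∀ τ, (cc z τ : ℝ) ≤ c) :
    ‖DD z r s mr ms b b' u v‖ ≤
      (2 * K).factorial * (c * M ^ (∑ j, r j - 2 * mr) * V ^ (∑ j, s j - 2 * ms)) := by
  have hM0 : 0 ≤ M := (norm_nonneg _).trans hM
  have hV0 : 0 ≤ V := (norm_nonneg _).trans hu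
  unfold DD
  refine (norm_sum_le _ _).trans ?_
  have h : ∀ τ ∈ (univ : Finset (Equiv.Perm (Fin (2 * K)))),
      ‖Equiv.Perm.sign τ • ((cc z τ : ℂ) *
        b ^ (ex (hi K) r τ - mr) * b' ^ (ex (lo K) r τ - mr) *
        (u ^ (ex (hi K) s τ - ms) * v ^ (ex (lo K) s τ - ms)))‖ ≤
      c * M ^ (∑ j, r j - 2 * mr) * V ^ (∑ j, s j - 2 * ms) := by
    intro τ _
    have h1 : ∀ x : ℂ, ‖Equiv.Perm.sign τ • x‖ = ‖x‖ := by
      intro x
      rcases Int.units_eq_one_or (Equiv.Perm.sign τ) with h | h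
      · rw [h, one_smul]
      · rw [h, Units.neg_smul, one_smul, norm_neg]
    rw [h1, norm_mul, norm_mul, norm_mul, norm_mul, norm_pow, norm_pow, norm_pow, norm_pow,
      Complex.norm_natCast, ← ex_sub_add hr τ, ← ex_sub_add hs τ, pow_add, pow_add]
    have hc0 : 0 ≤ c := (Nat.cast_nonneg _).trans (hc τ)
    have a1 := pow_le_pow_left₀ (norm_nonneg _) hM (ex (hi K) r τ - mr)
    have a2 := pow_le_pow_left₀ (norm_nonneg _) hM' (ex (lo K) r τ - mr)
    have a3 := pow_le_pow_left₀ (norm_nonneg _) hu (ex (hi K) s τ - ms)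
    have a4 := pow_le_pow_left₀ (norm_nonneg _) hv (ex (lo K) s τ - ms)
    rw [← mul_assoc c]
    exact mul_le_mul (mul_le_mul (mul_le_mul (hc τ) a1 (by positivity) hc0) a2 (by positivity)
      (by positivity)) (mul_le_mul a3 a4 (by positivity) (by positivity)) (by positivity)
      (by positivity)
  refine (sum_le_sum h).trans (le_of_eq ?_)
  rw [sum_const, card_univ, Fintype.card_perm, Fintype.card_fin, nsmul_eq_mul]

end Pool.Agent.Work.MP_8d13b5_lc.Sc
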