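import Pool.Agent.Work.MP_8d13b5_lc.Sc.Core
import Pool.Agent.Work.MP_8d13b5_lc.Sc.Abs
import Pool.Agent.Work.MP_8d13b5_lc.Pd.NF

set_option autoImplicit false

/-! Number fields: sector families. -/

namespace Pool.Agent.Work.MP_8d13b5_lc.Sc

open Polynomial Finset NumberField Pool.Agent.Work.MP_8d13b5_lc.Pd

section field

variable {K : Type*} [Field K] [NumberField K]

/-- **Sector families.** The characteristic roots are `β α_i`, `β' γ_i`, `D ^ l δ_i` with the roots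
`α_i`, `γ_i`, `δ_i` of `f`, `g`, `q`, where the ratio `β / β'` is close to `1` at some of the
embeddings (`1 / E φ` bounds the distance) and modulo `D ^ m`. -/
structure SFam (K : Type*) [Field K] [NumberField K] (f g q : (𝓞 K)[X]) (β β' D e : 𝓞 K)
    (l m σ ν : ℕ) (a w E : (K →+* ℂ) → ℝ) : Prop where
  monic : f.Monic ∧ g.Monic ∧ q.Monic
  coeff : f.coeff 0 ≠ 0 ∧ g.coeff 0 ≠ 0 ∧ q.coeff 0 ≠ 0
  exps : 1 ≤ σ ∧ 1 ≤ ν ∧ 1 ≤ m ∧ m * σ ≤ l * ν
  ne : β ≠ β'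
  diff : β' - β = D ^ m * e
  coprime : IsCoprime D β'
  roots : ∀ φ, 1 ≤ a φ ∧ 1 ≤ w φ ∧ 1 ≤ E φ ∧ (∀ z : ℂ, f.eval₂ (res φ) z = 0 → ‖z‖ ≤ a φ) ∧
      (∀ z : ℂ, g.eval₂ (res φ) z = 0 → ‖z‖ ≤ a φ) ∧
      ∀ z : ℂ, q.eval₂ (res φ) z = 0 → ‖z‖ ≤ w φ
  close : ∀ φ, E φ = 1 ∨ (E φ * ‖φ β - φ β'‖ ≤ ‖φ β'‖ ∧
    E φ ^ σ * (w φ * ‖φ D‖ ^ l) ^ ν ≤ ‖φ β'‖ ^ ν)
  small : ∏ φ : K →+* ℂ, (4 * w φ) ≤ ∏ φ : K →+* ℂ, ‖φ β‖ ∧
    ∏ φ : K →+* ℂ, (4 * w φ) ≤ ∏ φ : K →+* ℂ, ‖φ β'‖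
  large : ∏ φ : K →+* ℂ, ((1024 * a φ ^ 2) ^ (2 * σ * ν) * max 1 (max ‖φ β‖ ‖φ β'‖)) ≤
      ∏ φ : K →+* ℂ, (‖φ D‖ ^ (2 * σ * m) * E φ ^ (2 * σ))

/-- the local data of a family -/
theorem SFam.loc {f g q : (𝓞 K)[X]} {β β' D e : 𝓞 K} {l m σ ν : ℕ} {a w E : (K →+* ℂ) → ℝ}
    (H : SFam K f g q β β' D e l m σ ν a w E)
    {L : ℕ} (hL : ∀ φ : K →+* ℂ, ‖φ β‖ ≤ 2 ^ L ∧ ‖φ β'‖ ≤ 2 ^ L) :
    SLoc (fun φ : K →+* ℂ => res φ) β β' D l m σ ν (fun φ => 2 * a φ) (fun φ => 2 * w φ) E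
      (fun φ => max 1 (max ‖φ β‖ ‖φ β'‖)) (2 ^ ((L + 1) * Module.finrank ℚ K)) := by
  classical
  have haw := H.roots
  obtain ⟨hσ, hν, hm, hml⟩ := H.exps
  set k := Module.finrank ℚ K with hk
  have hk1 : 1 ≤ k := Module.finrank_pos
  have hcard : Fintype.card (K →+* ℂ) = k := card_emb
  have h2L : (1 : ℝ) ≤ 2 ^ L := one_le_pow₀ (by norm_num)
  have hLG : (2 : ℝ) ^ L ≤ 2 ^ ((L + 1) * k) := by
    apply pow_le_pow_right₀ (by norm_num)
    nlinarith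
  have he0 : e ≠ 0 := by
    intro h
    have := H.diff
    rw [h, mul_zero, sub_eq_zero] at this
    exact H.ne this.symm
  have hd0 : β' - β ≠ 0 := fun h => H.ne (sub_eq_zero.1 h).symm
  have hsub : ∀ φ : K →+* ℂ, ‖φ ((β' - β : 𝓞 K) : K)‖ ≤ 2 ^ (L + 1) := by
    intro φ
    rw [← res_apply, map_sub]
    refine (norm_sub_le _ _).trans ?_
    rw [pow_succ, res_apply, res_apply]
    linarith [(hL φ).1, (hL φ).2]
  -- the product of the `‖D‖ ^ m`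
  have hDprod : ∏ φ : K →+* ℂ, ‖φ D‖ ^ m ≤ 2 ^ ((L + 1) * k) := by
    have h1 : ∏ φ : K →+* ℂ, ‖φ ((β' - β : 𝓞 K) : K)‖ =
        (∏ φ : K →+* ℂ, ‖φ D‖ ^ m) * ∏ φ : K →+* ℂ, ‖φ e‖ := by
      rw [← prod_mul_distrib]
      refine prod_congr rfl fun φ _ => ?_
      rw [H.diff, ← res_apply, map_mul, map_pow, norm_mul, norm_pow]
      rfl
    calc ∏ φ : K →+* ℂ, ‖φ D‖ ^ m ≤ (∏ φ : K →+* ℂ, ‖φ D‖ ^ m) * ∏ φ : K →+* ℂ, ‖φ e‖ :=
          le_mul_of_one_le_right (prod_nonneg fun _ _ => by positivity) (one_le_prod e he0)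
      _ = ∏ φ : K →+* ℂ, ‖φ ((β' - β : 𝓞 K) : K)‖ := h1.symm
      _ ≤ ∏ _φ : K →+* ℂ, (2 : ℝ) ^ (L + 1) := prod_le_prod (fun _ _ => norm_nonneg _)
          fun φ _ => hsub φ
      _ = 2 ^ ((L + 1) * k) := by rw [prod_const, card_univ, hcard, pow_mul]
  have hEprod : ∏ φ : K →+* ℂ, E φ ≤ 2 ^ ((L + 1) * k) := by
    calc ∏ φ : K →+* ℂ, E φ ≤ (∏ φ : K →+* ℂ, E φ) * ∏ φ : K →+* ℂ, ‖φ ((β' - β : 𝓞 K) : K)‖ :=
          le_mul_of_one_le_right (prod_nonneg fun φ _ => by linarith [(haw φ).2.2.1])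
            (one_le_prod _ hd0)
      _ = ∏ φ : K →+* ℂ, (E φ * ‖φ ((β' - β : 𝓞 K) : K)‖) := prod_mul_distrib.symm
      _ ≤ ∏ _φ : K →+* ℂ, (2 : ℝ) ^ (L + 1) := by
          refine prod_le_prod (fun φ _ => mul_nonneg (by linarith [(haw φ).2.2.1])
            (norm_nonneg _)) fun φ _ => ?_
          rcases H.close φ with h | ⟨h, _⟩
          · rw [h, one_mul]
            exact hsub φ
          · have e1 : ‖φ ((β' - β : 𝓞 K) : K)‖ = ‖φ β - φ β'‖ := by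
              rw [← res_apply, map_sub, norm_sub_rev]
              rfl
            rw [e1]
            refine h.trans ((hL φ).2.trans ?_)
            exact pow_le_pow_right₀ (by norm_num) (Nat.le_succ L)
      _ = 2 ^ ((L + 1) * k) := by rw [prod_const, card_univ, hcard, pow_mul]
  have hM1 : ∀ φ : K →+* ℂ, (1 : ℝ) ≤ max 1 (max ‖φ β‖ ‖φ β'‖) := fun φ => le_max_left _ _
  -- bound of `a`
  have haG : ∀ φ, 2 * a φ ≤ 2 ^ ((L + 1) * k) := by
    intro φ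
    have ha := (haw φ).1
    have hf1 : ∀ φ, 1 ≤ (1024 * a φ ^ 2) ^ (2 * σ * ν) * max 1 (max ‖φ β‖ ‖φ β'‖) := fun φ => by
      have h1 : 1 ≤ 1024 * a φ ^ 2 := by nlinarith [(haw φ).1]
      exact one_le_mul_of_one_le_of_one_le (one_le_pow₀ h1) (hM1 φ)
    have h1 : (1024 * a φ ^ 2) ^ (2 * σ * ν) ≤
        ∏ φ : K →+* ℂ, ((1024 * a φ ^ 2) ^ (2 * σ * ν) * max 1 (max ‖φ β‖ ‖φ β'‖)) := by
      rw [← mul_prod_erase univ _ (mem_univ φ)]
      calc (1024 * a φ ^ 2) ^ (2 * σ * ν) ≤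
            (1024 * a φ ^ 2) ^ (2 * σ * ν) * max 1 (max ‖φ β‖ ‖φ β'‖) :=
            le_mul_of_one_le_right (by positivity) (hM1 φ)
        _ ≤ _ := le_mul_of_one_le_right (by have := hM1 φ; positivity)
            (prod_const_one.symm.le.trans
              (prod_le_prod (fun _ _ => zero_le_one) fun φ' _ => hf1 φ'))
    have h2 : (1024 * a φ ^ 2) ^ (2 * σ) ≤
        ((∏ φ : K →+* ℂ, ‖φ D‖ ^ m) * ∏ φ : K →+* ℂ, E φ) ^ (2 * σ) := by
      have h0 : (1024 * a φ ^ 2) ^ (2 * σ) ≤ (1024 * a φ ^ 2) ^ (2 * σ * ν) :=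
        pow_le_pow_right₀ (by nlinarith) (Nat.le_mul_of_pos_right _ hν)
      refine (h0.trans h1).trans (H.large.trans (le_of_eq ?_))
      rw [prod_mul_distrib, mul_pow, ← prod_pow, ← prod_pow]
      congr 1
      refine prod_congr rfl fun φ _ => ?_
      rw [← pow_mul]
      congr 1
      ring
    have h3 : 1024 * a φ ^ 2 ≤ (∏ φ : K →+* ℂ, ‖φ D‖ ^ m) * ∏ φ : K →+* ℂ, E φ :=
      le_of_pow_le_pow_left₀ (by omega) (mul_nonneg (prod_nonneg fun _ _ => by positivity)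
        (prod_nonneg fun φ _ => by linarith [(haw φ).2.2.1])) h2
    have h4 : (2 * a φ) ^ 2 ≤ (2 ^ ((L + 1) * k)) ^ 2 := by
      calc (2 * a φ) ^ 2 ≤ 1024 * a φ ^ 2 := by nlinarith
        _ ≤ _ := h3
        _ ≤ 2 ^ ((L + 1) * k) * 2 ^ ((L + 1) * k) := mul_le_mul hDprod hEprod
            (prod_nonneg fun φ _ => by linarith [(haw φ).2.2.1]) (by positivity)
        _ = _ := by ring
    exact le_of_pow_le_pow_left₀ (n := 2) (by norm_num) (by positivity) h4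
  exact
    { inj := fun φ => res_inj φ
      norm := fun x hx => one_le_prod x hx
      h1 := fun φ => by linarith [(haw φ).1]
      ω1 := fun φ => by linarith [(haw φ).2.1]
      E1 := fun φ => (haw φ).2.2.1
      M1 := hM1
      hG := haG
      MG := fun φ => max_le (h2L.trans hLG) (max_le ((hL φ).1.trans hLG) ((hL φ).2.trans hLG))
      βM := fun φ => (le_max_left _ _).trans (le_max_right _ _)
      β'M := fun φ => (le_max_right _ _).trans (le_max_right _ _)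
      close := fun φ => by
        rcases H.close φ with h | ⟨h, h'⟩
        · exact Or.inl h
        · refine Or.inr ⟨h, ?_⟩
          have e1 : E φ ^ σ * (2 * w φ * ‖res φ D‖ ^ l) ^ ν =
              2 ^ ν * (E φ ^ σ * (w φ * ‖φ D‖ ^ l) ^ ν) := by
            rw [res_apply, mul_assoc 2, mul_pow 2]
            ring
          rw [e1, mul_pow 2 ‖res φ β'‖ ν]
          exact mul_le_mul_of_nonneg_left h' (by positivity)
      smallβ := by
        refine le_trans (le_of_eq ?_) H.small.1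
        exact prod_congr rfl fun φ _ => by ring
      smallβ' := by
        refine le_trans (le_of_eq ?_) H.small.2
        exact prod_congr rfl fun φ _ => by ring
      large := by
        refine le_trans (le_of_eq ?_) H.large
        refine prod_congr rfl fun φ _ => ?_
        congr 2
        ring }

/-- the size condition -/
def Bd (ν : ℕ) (G : ℝ) (S : ℝ) (n : ℕ) : Prop :=
  2 ^ (116 * ν) * S ^ 4 * G ^ (34 * ν) ≤ 2 ^ n

theorem SFam.abs {f g q : (𝓞 K)[X]} {β β' D e : 𝓞 K} {l m σ ν : ℕ} {a w E : (K →+* ℂ) → ℝ}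
    (H : SFam K f g q β β' D e l m σ ν a w E)
    {L : ℕ} (hL : ∀ φ : K →+* ℂ, ‖φ β‖ ≤ 2 ^ L ∧ ‖φ β'‖ ≤ 2 ^ L) :
    Abs (fun φ : K →+* ℂ => res φ) f g q β β' D l a w
      (Bd ν (2 ^ ((L + 1) * Module.finrank ℚ K))) := by
  have haw := H.roots
  obtain ⟨hσ, hν, hm, hml⟩ := H.exps
  exact
    { core := fun S hS n s t r hs ht hr heq hbig =>
        (H.loc hL).core hσ hν hm hml H.diff H.ne H.coprime hS hs ht hr heq hbig
      ev := fun S => by
        obtain ⟨n₀, hn₀⟩ := pow_unbounded_of_one_lt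
          (2 ^ (116 * ν) * S ^ 4 * ((2 : ℝ) ^ ((L + 1) * Module.finrank ℚ K)) ^ (34 * ν))
          (one_lt_two (α := ℝ))
        exact ⟨n₀, fun n hn => hn₀.le.trans (pow_le_pow_right₀ (by norm_num) hn)⟩
      fm := H.monic.1
      gm := H.monic.2.1
      qm := H.monic.2.2
      f0 := H.coeff.1
      g0 := H.coeff.2.1
      q0 := H.coeff.2.2
      a1 := fun φ => (haw φ).1
      ha := fun φ z hz => (haw φ).2.2.2.1 z (by
        have := isRoot_of_mem_roots hz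
        rwa [IsRoot.def, eval_map] at this)
      hg := fun φ z hz => (haw φ).2.2.2.2.1 z (by
        have := isRoot_of_mem_roots hz
        rwa [IsRoot.def, eval_map] at this)
      w1 := fun φ => (haw φ).2.1
      hw := fun φ z hz => (haw φ).2.2.2.2.2 z (by
        have := isRoot_of_mem_roots hz
        rwa [IsRoot.def, eval_map] at this) }

/-- the final inequality -/
theorem final_num {N k L ν : ℕ} (hN : 1 ≤ N) (hk : 1 ≤ k) (hL : 1 ≤ L) (hν : 1 ≤ ν) {n : ℕ}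
    (hn : 220 * ν * N ^ 2 * k * L < n) :
    Bd ν (2 ^ ((L + 1) * k)) (2 * ((N * (N.factorial * ((2 ^ L) ^ N * 2 ^ N *
      (2 * 2 ^ L) ^ N) ^ N * 2 ^ L)) * 2 ^ N)) n := by
  unfold Bd
  have hX : (((2 : ℝ) ^ L) ^ N * 2 ^ N * (2 * 2 ^ L) ^ N) ^ N = 2 ^ ((2 * L + 2) * N ^ 2) := by
    have e3 : 2 * (2 : ℝ) ^ L = 2 ^ (1 + L) := by rw [pow_add, pow_one]
    rw [e3, ← pow_mul, ← pow_mul, ← pow_add, ← pow_add, ← pow_mul]
    congr 1
    ring
  have hNN : (N : ℝ) ≤ 2 ^ N := by exact_mod_cast (Nat.lt_two_pow_self (n := N)).le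
  have hNf : (N.factorial : ℝ) ≤ 2 ^ N ^ 2 := by
    have h1 : N.factorial ≤ N ^ N := Nat.factorial_le_pow N
    have h2 : N ^ N ≤ (2 ^ N) ^ N := Nat.pow_le_pow_left (Nat.lt_two_pow_self (n := N)).le N
    have h3 : (2 ^ N) ^ N = 2 ^ N ^ 2 := by rw [← pow_mul, sq]
    exact_mod_cast h1.trans (h2.trans h3.le)
  have hS : (2 * ((N * (N.factorial * (((2 : ℝ) ^ L) ^ N * 2 ^ N *
      (2 * 2 ^ L) ^ N) ^ N * 2 ^ L)) * 2 ^ N)) ≤ 2 ^ (9 * (L * N ^ 2)) := by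
    rw [hX]
    calc (2 * ((N * (N.factorial * (2 : ℝ) ^ ((2 * L + 2) * N ^ 2) * 2 ^ L)) * 2 ^ N))
        ≤ 2 * ((2 ^ N * (2 ^ N ^ 2 * (2 : ℝ) ^ ((2 * L + 2) * N ^ 2) * 2 ^ L)) * 2 ^ N) := by
          apply mul_le_mul_of_nonneg_left _ (by norm_num)
          apply mul_le_mul_of_nonneg_right _ (by positivity)
          apply mul_le_mul hNN _ (by positivity) (by positivity)
          apply mul_le_mul_of_nonneg_right _ (by positivity)
          exact mul_le_mul_of_nonneg_right hNf (by positivity)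
      _ = 2 ^ (1 + (N + (N ^ 2 + (2 * L + 2) * N ^ 2 + L)) + N) := by
          simp only [pow_add, pow_one]
          ring
      _ ≤ 2 ^ (9 * (L * N ^ 2)) := by
          apply pow_le_pow_right₀ (by norm_num)
          have h1 : N ≤ N ^ 2 := Nat.le_self_pow (by norm_num) N
          have h2 : N ^ 2 ≤ L * N ^ 2 := Nat.le_mul_of_pos_left _ hL
          have h3 : L ≤ L * N ^ 2 := Nat.le_mul_of_pos_right _ (by positivity)
          have h4 : (2 * L + 2) * N ^ 2 = 2 * (L * N ^ 2) + 2 * N ^ 2 := by ring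
          have h5 : 1 ≤ N := hN
          omega
  calc 2 ^ (116 * ν) * (2 * ((N * (N.factorial * (((2 : ℝ) ^ L) ^ N * 2 ^ N *
      (2 * 2 ^ L) ^ N) ^ N * 2 ^ L)) * 2 ^ N)) ^ 4 * (2 ^ ((L + 1) * k)) ^ (34 * ν)
      ≤ 2 ^ (116 * ν) * (2 ^ (9 * (L * N ^ 2))) ^ 4 * (2 ^ ((L + 1) * k)) ^ (34 * ν) := by
        apply mul_le_mul_of_nonneg_right _ (by positivity)
        apply mul_le_mul_of_nonneg_left _ (by positivity)
        exact pow_le_pow_left₀ (by positivity) hS 4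
    _ = 2 ^ (116 * ν + 36 * (L * N ^ 2) + 34 * (ν * ((L + 1) * k))) := by
        rw [← pow_mul, ← pow_mul, ← pow_add, ← pow_add]
        congr 1
        ring
    _ ≤ 2 ^ n := by
        apply pow_le_pow_right₀ (by norm_num)
        refine le_trans ?_ hn.le
        set x := ν * (L * k * N ^ 2) with hx
        have h0 : 1 ≤ L * k * N ^ 2 := Nat.one_le_iff_ne_zero.2 (by positivity)
        have h1 : ν ≤ x := Nat.le_mul_of_pos_right _ h0
        have h2 : L * N ^ 2 ≤ x :=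
          (Nat.mul_le_mul_right _ (Nat.le_mul_of_pos_right _ hk)).trans
            (Nat.le_mul_of_pos_left _ hν)
        have h3 : ν * (L * k) ≤ x :=
          Nat.mul_le_mul_left _ (Nat.le_mul_of_pos_right _ (by positivity))
        have h4 : ν * k ≤ ν * (L * k) :=
          Nat.mul_le_mul_left _ (Nat.le_mul_of_pos_left _ hL)
        have h5 : 220 * ν * N ^ 2 * k * L = 220 * x := by rw [hx]; ring
        have h6 : ν * ((L + 1) * k) = ν * (L * k) + ν * k := by ring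
        rw [h5, h6]
        omega

/-- **Zeros are common zeros of the three parts.** -/
theorem SFam.zero {f g q : (𝓞 K)[X]} {β β' D e : 𝓞 K} {l m σ ν : ℕ} {a w E : (K →+* ℂ) → ℝ}
    (H : SFam K f g q β β' D e l m σ ν a w E) {L : ℕ} (hL1 : 1 ≤ L)
    (hL : ∀ φ : K →+* ℂ, ‖φ β‖ ≤ 2 ^ L ∧ ‖φ β'‖ ≤ 2 ^ L ∧ ‖φ (D ^ l : 𝓞 K)‖ ≤ 2 ^ L)
    (hroots : ∀ (φ : K →+* ℂ) (z : ℂ), (f.scaleRoots β * g.scaleRoots β' *
      q.scaleRoots (D ^ l)).eval₂ (res φ) z = 0 → ‖z‖ ≤ 2 ^ L)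
    {s t r : ℕ → K} (hs : Sol (f.map (algebraMap (𝓞 K) K)) s)
    (ht : Sol (g.map (algebraMap (𝓞 K) K)) t) (hr : Sol (q.map (algebraMap (𝓞 K) K)) r)
    {y : ℕ → 𝓞 K} {N : ℕ} (hN : f.natDegree + (g.natDegree + q.natDegree) ≤ N)
    (hyL : ∀ φ : K →+* ℂ, ∀ i < N, ‖φ (y i)‖ ≤ 2 ^ L)
    (hy : ∀ n, (y n : K) = (β : K) ^ n * s n + (β' : K) ^ n * t n + ((D : K) ^ l) ^ n * r n)
    {n : ℕ} (hn : 220 * ν * N ^ 2 * Module.finrank ℚ K * L < n) {ρ : 𝓞 K}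
    (hρ : ∀ φ : K →+* ℂ, ‖φ ρ‖ ≤ (2 * w φ) ^ n) (h0 : y n = (D ^ l) ^ n * ρ) :
    s n = 0 ∧ t n = 0 ∧ r n = ρ := by
  have HS := H.abs (fun φ => ⟨(hL φ).1, (hL φ).2.1⟩)
  obtain ⟨hfm, hgm, hqm⟩ := H.monic
  set ψ := algebraMap (𝓞 K) K with hψ
  have hDl : (D ^ l : 𝓞 K) ≠ 0 := by
    apply pow_ne_zero
    intro h
    have := H.diff
    have hm : m ≠ 0 := by have := H.exps; omega
    rw [h, zero_pow hm, zero_mul, sub_eq_zero] at this
    exact H.ne this.symm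
  by_cases hdeg : f.natDegree + (g.natDegree + q.natDegree) = 0
  · have e1 : s n = 0 := hs.eq_zero (hfm.map ψ) (fun i hi => by
      rw [hfm.natDegree_map] at hi; omega) n
    have e2 : t n = 0 := ht.eq_zero (hgm.map ψ) (fun i hi => by
      rw [hgm.natDegree_map] at hi; omega) n
    have e3 : r n = 0 := hr.eq_zero (hqm.map ψ) (fun i hi => by
      rw [hqm.natDegree_map] at hi; omega) n
    refine ⟨e1, e2, ?_⟩
    have h1 := hy n
    rw [e1, e2, e3, mul_zero, mul_zero, mul_zero, add_zero, add_zero, h0] at h1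
    have h2 : (D ^ l) ^ n * ρ = 0 :=
      (map_eq_zero_iff (algebraMap (𝓞 K) K) RingOfIntegers.coe_injective).1 h1
    rw [(mul_eq_zero.1 h2).resolve_left (pow_ne_zero _ hDl), e3]
    simp
  set k := Module.finrank ℚ K with hk
  have hk1 : 1 ≤ k := Module.finrank_pos
  have h2L : (1 : ℝ) ≤ 2 ^ L := one_le_pow₀ (by norm_num)
  set N' := f.natDegree + (g.natDegree + q.natDegree) with hN'
  refine HS.zero_parts ψ RingOfIntegers.coe_injective hs ht hr (y := y)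
    (Y := 2 ^ L) (B := 2 ^ L) (U0 := 2 ^ L) ?_ h2L ?_ ?_ ?_ h2L ?_ ?_ ?_
    hN'.symm (by omega) h2L ?_ hρ ?_ ?_
  · intro j
    rw [pow_mul]
    exact hy j
  · exact fun φ => (hL φ).1
  · exact fun φ => (hL φ).2.1
  · exact fun φ => (hL φ).2.2
  · intro φ z hz
    apply hroots φ z
    rw [mul_assoc]
    exact root_map_left _ hz
  · intro φ z hz
    apply hroots φ z
    rw [mul_comm (f.scaleRoots β), mul_assoc]
    exact root_map_left _ hz
  · intro φ z hz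
    apply hroots φ z
    rw [mul_comm (f.scaleRoots β * g.scaleRoots β')]
    exact root_map_left _ hz
  · exact fun φ i hi => hyL φ i (by omega)
  · rw [h0, pow_mul]
  · apply final_num (by omega) hk1 hL1 H.exps.2.1
    refine lt_of_le_of_lt ?_ hn
    apply Nat.mul_le_mul_right
    apply Nat.mul_le_mul_right
    apply Nat.mul_le_mul_left
    exact Nat.pow_le_pow_left hN 2

/-- **Existence of the parts.** -/
theorem SFam.parts {f g q : (𝓞 K)[X]} {β β' D e : 𝓞 K} {l m σ ν : ℕ} {a w E : (K →+* ℂ) → ℝ}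
    (H : SFam K f g q β β' D e l m σ ν a w E)
    {y : ℕ → K} (hy : Sol ((f.scaleRoots β * g.scaleRoots β' * q.scaleRoots (D ^ l)).map
      (algebraMap (𝓞 K) K)) y) :
    ∃ s t r : ℕ → K, Sol (f.map (algebraMap (𝓞 K) K)) s ∧ Sol (g.map (algebraMap (𝓞 K) K)) t ∧
      Sol (q.map (algebraMap (𝓞 K) K)) r ∧
      ∀ n, y n = (β : K) ^ n * s n + (β' : K) ^ n * t n + ((D : K) ^ l) ^ n * r n := by
  obtain ⟨L, hL⟩ : ∃ L : ℕ, ∀ φ : K →+* ℂ, ‖φ β‖ ≤ 2 ^ L ∧ ‖φ β'‖ ≤ 2 ^ L := by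
    obtain ⟨U, hU1, hU⟩ := exists_bound (fun φ : K →+* ℂ => res φ) ![β, β']
    obtain ⟨L, hL⟩ := pow_unbounded_of_one_lt U (one_lt_two (α := ℝ))
    exact ⟨L, fun φ => ⟨(hU φ 0).trans hL.le, (hU φ 1).trans hL.le⟩⟩
  exact (H.abs hL).exists_parts (algebraMap (𝓞 K) K) RingOfIntegers.coe_injective hy

end field

end Pool.Agent.Work.MP_8d13b5_lc.Sc
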